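import Mathlib

/-!
Compact zero-dimensional perfect spaces are Cantor sets.  The part on subsets of the line (`Good`) is
taken over from the starting file `Pool/Agent/Results/MP_c19edd_an/CantorType.lean`.
-/

set_option autoImplicit false

open Set Filter Topology

namespace Pool.Agent.H812R3.CantorChar

/-- nonempty compact sets without isolated points and with dense complement -/
def Good (K : Set ℝ) : Prop :=
  IsCompact K ∧ K.Nonempty ∧ (∀ z ∈ K, ∀ ε > 0, ∃ y ∈ K, y ≠ z ∧ |y - z| < ε) ∧
    ∀ u v : ℝ, u < v → ∃ z, u < z ∧ z < v ∧ z ∉ K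

theorem Good.part {K : Set ℝ} (hK : Good K) (z : ℝ) (hz : z ∉ K) (hne : (K ∩ Iic z).Nonempty) :
    Good (K ∩ Iic z) := by
  obtain ⟨h1, -, h3, h4⟩ := hK
  refine ⟨h1.inter_right isClosed_Iic, hne, ?_, ?_⟩
  · rintro w ⟨hw, hwz⟩ ε hε
    have hlt : w < z := lt_of_le_of_ne hwz (fun h => hz (h ▸ hw))
    obtain ⟨y, hy, hyw, hyd⟩ := h3 w hw (min ε (z - w)) (lt_min hε (by linarith))
    refine ⟨y, ⟨hy, ?_⟩, hyw, hyd.trans_le (min_le_left _ _)⟩
    have := (abs_lt.1 (hyd.trans_le (min_le_right _ _))).2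
    rw [mem_Iic]; linarith
  · intro u v huv
    obtain ⟨w, h5, h6, h7⟩ := h4 u v huv
    exact ⟨w, h5, h6, fun h => h7 h.1⟩

theorem Good.part' {K : Set ℝ} (hK : Good K) (z : ℝ) (hz : z ∉ K) (hne : (K ∩ Ici z).Nonempty) :
    Good (K ∩ Ici z) := by
  obtain ⟨h1, -, h3, h4⟩ := hK
  refine ⟨h1.inter_right isClosed_Ici, hne, ?_, ?_⟩
  · rintro w ⟨hw, hwz⟩ ε hε
    have hlt : z < w := lt_of_le_of_ne hwz (fun h => hz (h ▸ hw))
    obtain ⟨y, hy, hyw, hyd⟩ := h3 w hw (min ε (w - z)) (lt_min hε (by linarith))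
    refine ⟨y, ⟨hy, ?_⟩, hyw, hyd.trans_le (min_le_left _ _)⟩
    have := (abs_lt.1 (hyd.trans_le (min_le_right _ _))).1
    rw [mem_Ici]; linarith
  · intro u v huv
    obtain ⟨w, h5, h6, h7⟩ := h4 u v huv
    exact ⟨w, h5, h6, fun h => h7 h.1⟩

theorem Good.split {K : Set ℝ} (hK : Good K) : ∃ K₀ K₁ : Set ℝ, Good K₀ ∧ Good K₁ ∧
    K₀ ⊆ K ∧ K₁ ⊆ K ∧ K ⊆ K₀ ∪ K₁ ∧ Disjoint K₀ K₁ ∧
    Metric.diam K₀ ≤ 2 / 3 * Metric.diam K ∧ Metric.diam K₁ ≤ 2 / 3 * Metric.diam K := by
  have hlo : sInf K ∈ K := hK.1.sInf_mem hK.2.1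
  have hhi : sSup K ∈ K := hK.1.sSup_mem hK.2.1
  have hbb : BddBelow K := hK.1.bddBelow
  have hba : BddAbove K := hK.1.bddAbove
  have hlt : sInf K < sSup K := by
    obtain ⟨y, hy, hne, -⟩ := hK.2.2.1 _ hlo 1 one_pos
    exact lt_of_lt_of_le (lt_of_le_of_ne (csInf_le hbb hy) (Ne.symm hne)) (le_csSup hba hy)
  have hd : sSup K - sInf K ≤ Metric.diam K := by
    have := Metric.dist_le_diam_of_mem hK.1.isBounded hhi hlo
    rwa [Real.dist_eq, abs_of_pos (by linarith)] at this
  have hmem : ∀ y ∈ K, sInf K ≤ y ∧ y ≤ sSup K := fun y hy => ⟨csInf_le hbb hy, le_csSup hba hy⟩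
  generalize sInf K = lo at *
  generalize sSup K = hi at *
  obtain ⟨z, hz1, hz2, hz3⟩ := hK.2.2.2 (lo + (hi - lo) / 3) (hi - (hi - lo) / 3) (by linarith)
  refine ⟨K ∩ Iic z, K ∩ Ici z, hK.part z hz3 ⟨lo, hlo, ?_⟩, hK.part' z hz3 ⟨hi, hhi, ?_⟩,
    inter_subset_left, inter_subset_left, ?_, ?_, ?_, ?_⟩
  · rw [mem_Iic]; linarith
  · rw [mem_Ici]; linarith
  · intro y hy
    rcases le_total y z with h | h
    · exact Or.inl ⟨hy, h⟩
    · exact Or.inr ⟨hy, h⟩
  · rw [Set.disjoint_left]
    rintro y ⟨hy, h1⟩ ⟨-, h2⟩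
    exact hz3 (le_antisymm (mem_Iic.1 h1) (mem_Ici.1 h2) ▸ hy)
  · refine Metric.diam_le_of_forall_dist_le (by linarith) ?_
    rintro a ⟨ha, ha'⟩ b ⟨hb, hb'⟩
    rw [mem_Iic] at ha' hb'
    rw [Real.dist_eq, abs_le]
    constructor <;> linarith [(hmem a ha).1, (hmem b hb).1]
  · refine Metric.diam_le_of_forall_dist_le (by linarith) ?_
    rintro a ⟨ha, ha'⟩ b ⟨hb, hb'⟩
    rw [mem_Ici] at ha' hb'
    rw [Real.dist_eq, abs_le]
    constructor <;> linarith [(hmem a ha).2, (hmem b hb).2]

theorem Good.homeo {X : Set ℝ} (hX : Good X) : Nonempty (X ≃ₜ cantorSet) := by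
  classical
  have hsp := fun (K : Set ℝ) (hK : Good K) => hK.split
  choose! f₀ f₁ hf0 hf1 hs0 hs1 hu hdj hd0 hd1 using hsp
  let S : List Bool → Set ℝ := fun l => List.rec X (fun b _ K => bif b then f₁ K else f₀ K) l
  have hSnil : S [] = X := rfl
  have hScons : ∀ b l, S (b :: l) = bif b then f₁ (S l) else f₀ (S l) := fun b l => rfl
  clear_value S
  have hgood : ∀ l, Good (S l) := by
    intro l
    induction l with
    | nil => rw [hSnil]; exact hX
    | cons b l ih =>
      rw [hScons]
      cases b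
      · exact hf0 _ ih
      · exact hf1 _ ih
  have hanti : CantorScheme.Antitone S := by
    intro l b
    rw [hScons]
    cases b
    · exact hs0 _ (hgood l)
    · exact hs1 _ (hgood l)
  have hdisj : CantorScheme.Disjoint S := by
    intro l a b hab
    have h := hdj _ (hgood l)
    simp only [hScons]
    cases a <;> cases b
    · exact absurd rfl hab
    · exact h
    · exact h.symm
    · exact absurd rfl hab
  have hdiam : ∀ l, Metric.diam (S l) ≤ (2 / 3) ^ l.length * Metric.diam X := by
    intro l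
    induction l with
    | nil => rw [hSnil]; simp
    | cons b l ih =>
      rw [hScons, List.length_cons, pow_succ]
      have h0 := hd0 _ (hgood l)
      have h1 := hd1 _ (hgood l)
      cases b
      · simp only [cond_false]; nlinarith
      · simp only [cond_true]; nlinarith
  have htend : ∀ ω : ℕ → Bool, Tendsto (fun n => Metric.diam (S (PiNat.res ω n))) atTop (𝓝 0) := by
    intro ω
    have h1 : Tendsto (fun n : ℕ => (2 / 3 : ℝ) ^ n * Metric.diam X) atTop (𝓝 0) := by
      have := (tendsto_pow_atTop_nhds_zero_of_lt_one (by norm_num : (0 : ℝ) ≤ 2 / 3)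
        (by norm_num : (2 / 3 : ℝ) < 1)).mul_const (Metric.diam X)
      simpa using this
    refine squeeze_zero (fun n => Metric.diam_nonneg) (fun n => ?_) h1
    have := hdiam (PiNat.res ω n)
    rwa [PiNat.res_length] at this
  have hvan : CantorScheme.VanishingDiam S := by
    intro ω
    have h1 : ∀ l, Metric.ediam (S l) = ENNReal.ofReal (Metric.diam (S l)) := by
      intro l
      rw [Metric.diam, ENNReal.ofReal_toReal]
      exact (hgood l).1.isBounded.ediam_ne_top
    simp only [h1]
    have := ENNReal.tendsto_ofReal (htend ω)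
    simpa using this
  have hcl : CantorScheme.ClosureAntitone S := hanti.closureAntitone fun l => (hgood l).1.isClosed
  have huniv : (CantorScheme.inducedMap S).1 = univ :=
    hcl.map_of_vanishingDiam hvan fun l => (hgood l).2.1
  have hcont := hvan.map_continuous
  have hinj := hdisj.map_injective
  let g : (ℕ → Bool) → ℝ := fun ω => (CantorScheme.inducedMap S).2 ⟨ω, by rw [huniv]; trivial⟩
  have hgmem : ∀ ω n, g ω ∈ S (PiNat.res ω n) := fun ω n => CantorScheme.map_mem _ n
  have hgcont : Continuous g := hcont.comp (continuous_id.subtype_mk _)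
  have hginj : Function.Injective g := by
    intro a b hab
    have := hinj hab
    exact congrArg Subtype.val this
  have hgX : ∀ ω, g ω ∈ X := by
    intro ω
    have := hgmem ω 0
    rwa [PiNat.res_zero, hSnil] at this
  have hgsurj : ∀ y ∈ X, ∃ ω, g ω = y := by
    intro y hy
    have hstep : ∀ l, y ∈ S l → ∃ b, y ∈ S (b :: l) := by
      intro l hl
      rcases hu _ (hgood l) hl with h | h
      · exact ⟨false, by rw [hScons]; exact h⟩
      · exact ⟨true, by rw [hScons]; exact h⟩
    choose! b hb using hstep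
    let L : ℕ → List Bool := fun n => Nat.rec [] (fun _ l => b l :: l) n
    have hL0 : L 0 = [] := rfl
    have hLs : ∀ n, L (n + 1) = b (L n) :: L n := fun n => rfl
    clear_value L
    have hyL : ∀ n, y ∈ S (L n) := by
      intro n
      induction n with
      | zero => rw [hL0, hSnil]; exact hy
      | succ n ih => rw [hLs]; exact hb _ ih
    have hres : ∀ n, PiNat.res (fun k => b (L k)) n = L n := by
      intro n
      induction n with
      | zero => rw [hL0, PiNat.res_zero]
      | succ n ih => rw [hLs, PiNat.res_succ, ih]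
    refine ⟨fun k => b (L k), ?_⟩
    have h1 : ∀ n, dist (g fun k => b (L k)) y ≤ Metric.diam (S (PiNat.res (fun k => b (L k)) n)) := by
      intro n
      refine Metric.dist_le_diam_of_mem (hgood _).1.isBounded (hgmem _ n) ?_
      rw [hres]; exact hyL n
    have h2 : dist (g fun k => b (L k)) y ≤ 0 := ge_of_tendsto' (htend _) h1
    exact dist_le_zero.1 h2
  let e : (ℕ → Bool) ≃ X := Equiv.ofBijective (fun ω => ⟨g ω, hgX ω⟩)
    ⟨fun a b hab => hginj (congrArg Subtype.val hab), fun ⟨y, hy⟩ => by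
      obtain ⟨ω, hω⟩ := hgsurj y hy
      exact ⟨ω, Subtype.ext hω⟩⟩
  have hec : Continuous e := hgcont.subtype_mk _
  exact ⟨(Continuous.homeoOfEquivCompactToT2 hec).symm.trans cantorSetHomeomorphNatToBool.symm⟩
/-- A nonempty compact space without isolated points which injects continuously into the Cantor
space is homeomorphic to the Cantor space. -/
theorem cantor_char {Z : Type*} [TopologicalSpace Z] [CompactSpace Z] [Nonempty Z]
    (e : Z → (ℕ → Bool)) (he : Continuous e) (hinj : Function.Injective e)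
    (hperf : ∀ z : Z, ∀ U : Set Z, IsOpen U → z ∈ U → ∃ y ∈ U, y ≠ z) :
    Nonempty (Z ≃ₜ (ℕ → Bool)) := by
  let g : Z → ℝ := fun z => ((cantorSetHomeomorphNatToBool.symm (e z) : cantorSet) : ℝ)
  have hg : Continuous g :=
    continuous_subtype_val.comp (cantorSetHomeomorphNatToBool.symm.continuous.comp he)
  have hgi : Function.Injective g := by
    intro a b hab
    exact hinj (cantorSetHomeomorphNatToBool.symm.injective (Subtype.ext hab))
  have hgood : Good (range g) := by
    refine ⟨isCompact_range hg, range_nonempty g, ?_, ?_⟩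
    · rintro _ ⟨z, rfl⟩ ε hε
      obtain ⟨y, hy, hne⟩ := hperf z (g ⁻¹' Metric.ball (g z) ε)
        (Metric.isOpen_ball.preimage hg) (Metric.mem_ball_self hε)
      refine ⟨g y, mem_range_self y, fun h => hne (hgi h), ?_⟩
      have := Metric.mem_ball.1 hy
      rwa [Real.dist_eq] at this
    · intro u v huv
      by_contra hcon
      push Not at hcon
      have hsub : ∀ x ∈ Ioo u v, x ∈ cantorSet := by
        intro x hx
        obtain ⟨z, hz⟩ := hcon x hx.1 hx.2
        rw [← hz]
        exact (cantorSetHomeomorphNatToBool.symm (e z)).2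
      let F : Ioo u v → (ℕ → Bool) := fun x => cantorSetHomeomorphNatToBool ⟨x.1, hsub x.1 x.2⟩
      have hF : Continuous F := cantorSetHomeomorphNatToBool.continuous.comp
        (continuous_subtype_val.subtype_mk _)
      have hFi : Function.Injective F := by
        intro a b hab
        have := cantorSetHomeomorphNatToBool.injective hab
        have h := congrArg (fun z : cantorSet => (z : ℝ)) this
        exact Subtype.ext h
      have : PreconnectedSpace (Ioo u v) := Subtype.preconnectedSpace isPreconnected_Ioo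
      have hsub2 := (isPreconnected_univ.image F hF.continuousOn).subsingleton
      have h1 : u + (v - u) / 3 ∈ Ioo u v := ⟨by linarith, by linarith⟩
      have h2 : u + (v - u) / 2 ∈ Ioo u v := ⟨by linarith, by linarith⟩
      have h3 := hsub2 (mem_image_of_mem F (mem_univ ⟨_, h1⟩)) (mem_image_of_mem F (mem_univ ⟨_, h2⟩))
      have h4 := congrArg Subtype.val (hFi h3)
      simp only at h4
      linarith
  obtain ⟨h⟩ := hgood.homeo
  let e1 : Z ≃ range g := Equiv.ofInjective g hgi
  have he1 : Continuous e1 := hg.subtype_mk _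
  exact ⟨((Continuous.homeoOfEquivCompactToT2 he1).trans h).trans cantorSetHomeomorphNatToBool⟩

end Pool.Agent.H812R3.CantorChar
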