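import Mathlib
import Pool.Agent.H812R3.CantorChar

set_option autoImplicit false

open Set Filter Topology

namespace Pool.Agent.H812R3.FDC

variable {Γ : Type} [Group Γ]

/-- the set of `a` such that `a` and `a g⁻¹` lie in one member of the family -/
def E (𝒴 : Set (Set Γ)) (g : Γ) : Set Γ := {a | ∃ Y ∈ 𝒴, a ∈ Y ∧ a * g⁻¹ ∈ Y}

open Classical in
/-- the coding point of `a` -/
noncomputable def pt (A : ℕ → Set Γ) (a : Γ) : Γ × ℕ → Bool := fun i => decide (a * i.1⁻¹ ∈ A i.2)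

lemma pt_apply (A : ℕ → Set Γ) (a k : Γ) (n : ℕ) : pt A a (k, n) = true ↔ a * k⁻¹ ∈ A n := by
  simp [pt]

/-- shift action -/
def sh (g : Γ) (x : Γ × ℕ → Bool) : Γ × ℕ → Bool := fun i => x (i.1 * g, i.2)

lemma sh_continuous (g : Γ) : Continuous (sh g) :=
  continuous_pi fun _ => continuous_apply _

lemma sh_pt (A : ℕ → Set Γ) (g a : Γ) : sh g (pt A a) = pt A (a * g⁻¹) := by
  funext i
  obtain ⟨k, n⟩ := i
  have h : a * (k * g)⁻¹ = a * g⁻¹ * k⁻¹ := by rw [mul_inv_rev, mul_assoc]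
  simp only [sh, pt, decide_eq_decide, h]

/-- subgroupoid condition -/
def IsSub (act : Γ → (ℕ → Bool) → (ℕ → Bool)) (H : Set (Γ × (ℕ → Bool))) : Prop :=
  (∀ (g h : Γ) (x : ℕ → Bool), (g, act h x) ∈ H → (h, x) ∈ H → (g * h, x) ∈ H) ∧
    (∀ (g : Γ) (x : ℕ → Bool), (g, x) ∈ H → (g⁻¹, act g x) ∈ H)

/-- the groupoid attached to a family -/
def HY (A : ℕ → Set Γ) (π : (ℕ → Bool) → (Γ × ℕ → Bool)) (𝒴 : Set (Set Γ)) :
    Set (Γ × (ℕ → Bool)) :=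
  {q | π q.2 ∈ closure (pt A '' E 𝒴 q.1)}

/-- a coded action -/
structure Coded (A : ℕ → Set Γ) (act : Γ → (ℕ → Bool) → (ℕ → Bool))
    (π : (ℕ → Bool) → (Γ × ℕ → Bool)) : Prop where
  cont : ∀ g, Continuous (act g)
  one : ∀ x, act 1 x = x
  mul : ∀ (g h : Γ) (x : ℕ → Bool), act (g * h) x = act g (act h x)
  pcont : Continuous π
  equi : ∀ g x, π (act g x) = sh g (π x)
  mem : ∀ x, π x ∈ closure (range (pt A))

lemma isOpen_coord {ι : Type} (i : ι) : IsOpen {x : ι → Bool | x i = true} := by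
  have h1 : Continuous (fun x : ι → Bool => x i) := continuous_apply i
  exact (isOpen_discrete ({true} : Set Bool)).preimage h1

lemma isClosed_coord {ι : Type} (i : ι) : IsClosed {x : ι → Bool | x i = true} := by
  have h1 : Continuous (fun x : ι → Bool => x i) := continuous_apply i
  exact (isClosed_discrete ({true} : Set Bool)).preimage h1

lemma closure_coord (A : ℕ → Set Γ) (S : Set Γ) (n : ℕ) (x : Γ × ℕ → Bool)
    (hx : x ∈ closure (pt A '' S)) (h : x (1, n) = true) : x ∈ closure (pt A '' (S ∩ A n)) := by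
  have h1 := mem_closure_iff.1 hx
  rw [mem_closure_iff]
  intro O hO hxO
  obtain ⟨y, ⟨hyO, hy1⟩, ⟨a, haS, rfl⟩⟩ := h1 (O ∩ {x | x (1, n) = true}) (hO.inter (isOpen_coord _))
    ⟨hxO, h⟩
  refine ⟨_, hyO, ⟨a, ⟨haS, ?_⟩, rfl⟩⟩
  have : pt A a (1, n) = true := hy1
  rw [pt_apply] at this
  simpa using this

lemma mem_coord (A : ℕ → Set Γ) (n : ℕ) (x : Γ × ℕ → Bool)
    (hx : x ∈ closure (pt A '' A n)) : x (1, n) = true := by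
  have h1 : closure (pt A '' A n) ⊆ {x | x (1, n) = true} := by
    apply closure_minimal _ (isClosed_coord _)
    rintro _ ⟨a, ha, rfl⟩
    show pt A a (1, n) = true
    rw [pt_apply]
    simpa using ha
  exact h1 hx

lemma HY_isSub (A : ℕ → Set Γ) (act : Γ → (ℕ → Bool) → (ℕ → Bool))
    (π : (ℕ → Bool) → (Γ × ℕ → Bool)) (hC : Coded A act π) (𝒴 : Set (Set Γ))
    (hdis : 𝒴.PairwiseDisjoint id) (hA : ∀ g, ∃ n, A n = E 𝒴 g) : IsSub act (HY A π 𝒴) := by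
  constructor
  · intro g h x hg hh
    obtain ⟨ng, hng⟩ := hA g
    obtain ⟨nh, hnh⟩ := hA h
    have h1 : π x (1, nh) = true := by
      apply mem_coord A
      rw [hnh]
      exact hh
    have h2 : π x (h, ng) = true := by
      have : π (act h x) (1, ng) = true := by
        apply mem_coord A
        rw [hng]
        exact hg
      rw [hC.equi] at this
      simpa [sh] using this
    show π x ∈ closure (pt A '' E 𝒴 (g * h))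
    have h3 := mem_closure_iff.1 (hC.mem x)
    rw [mem_closure_iff]
    intro O hO hxO
    obtain ⟨y, ⟨⟨hyO, hy1⟩, hy2⟩, ⟨a, rfl⟩⟩ := h3 ((O ∩ {x | x (1, nh) = true}) ∩ {x | x (h, ng) = true})
      ((hO.inter (isOpen_coord _)).inter (isOpen_coord _)) ⟨⟨hxO, h1⟩, h2⟩
    refine ⟨_, hyO, ⟨a, ?_, rfl⟩⟩
    have ha1 : pt A a (1, nh) = true := hy1
    have ha2 : pt A a (h, ng) = true := hy2
    rw [pt_apply, hnh] at ha1
    rw [pt_apply, hng] at ha2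
    simp only [inv_one, mul_one] at ha1
    obtain ⟨Y, hY, h4, h5⟩ := ha1
    obtain ⟨Y', hY', h6, h7⟩ := ha2
    have hYY : Y = Y' := by
      by_contra hne
      exact (Set.disjoint_left.1 (hdis hY hY' hne)) h5 h6
    subst hYY
    refine ⟨Y, hY, h4, ?_⟩
    rw [mul_inv_rev, ← mul_assoc]
    exact h7
  · intro g x hg
    show π (act g x) ∈ closure (pt A '' E 𝒴 g⁻¹)
    rw [hC.equi]
    have h1 : sh g (π x) ∈ closure (sh g '' (pt A '' E 𝒴 g)) :=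
      image_closure_subset_closure_image (sh_continuous g) ⟨π x, hg, rfl⟩
    refine closure_mono ?_ h1
    rintro _ ⟨_, ⟨a, ⟨Y, hY, h2, h3⟩, rfl⟩, rfl⟩
    refine ⟨a * g⁻¹, ⟨Y, hY, h3, ?_⟩, (sh_pt A g a).symm⟩
    simpa using h2

/-- the subgroupoid generated by a set -/
def Gen (act : Γ → (ℕ → Bool) → (ℕ → Bool)) (K : Set (Γ × (ℕ → Bool))) (U : Set (ℕ → Bool)) :
    Set (Γ × (ℕ → Bool)) :=
  ⋂₀ {S : Set (Γ × (ℕ → Bool)) | IsSub act S ∧ {k ∈ K | k.2 ∈ U} ⊆ S}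

lemma Gen_isSub (act : Γ → (ℕ → Bool) → (ℕ → Bool)) (K : Set (Γ × (ℕ → Bool)))
    (U : Set (ℕ → Bool)) : IsSub act (Gen act K U) := by
  constructor
  · intro g h x hg hh S hS
    exact hS.1.1 g h x (hg S hS) (hh S hS)
  · intro g x hg S hS
    exact hS.1.2 g x (hg S hS)

lemma Gen_sub (act : Γ → (ℕ → Bool) → (ℕ → Bool)) (K : Set (Γ × (ℕ → Bool)))
    (U : Set (ℕ → Bool)) : {k ∈ K | k.2 ∈ U} ⊆ Gen act K U :=
  fun _ hk _ hS => hS.2 hk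

lemma Gen_le (act : Γ → (ℕ → Bool) → (ℕ → Bool)) (K : Set (Γ × (ℕ → Bool)))
    (U : Set (ℕ → Bool)) (S : Set (Γ × (ℕ → Bool))) (hS : IsSub act S)
    (h : {k ∈ K | k.2 ∈ U} ⊆ S) : Gen act K U ⊆ S :=
  fun _ hq => hq S ⟨hS, h⟩

lemma Gen_open (act : Γ → (ℕ → Bool) → (ℕ → Bool)) (hcont : ∀ g, Continuous (act g))
    (hone : ∀ x, act 1 x = x) (hmul : ∀ (g h : Γ) (x : ℕ → Bool), act (g * h) x = act g (act h x))
    (K : Set (Γ × (ℕ → Bool)))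
    (U : Set (ℕ → Bool)) (hU : IsOpen U) (hK : ∀ g : Γ, IsOpen {x : ℕ → Bool | (g, x) ∈ K}) :
    ∀ g : Γ, IsOpen {x : ℕ → Bool | (g, x) ∈ Gen act K U} := by
  let O : Set (Γ × (ℕ → Bool)) := {q | q.2 ∈ interior {x | (q.1, x) ∈ Gen act K U}}
  have hO : IsSub act O := by
    constructor
    · intro g h x hg hh
      show x ∈ interior {x | (g * h, x) ∈ Gen act K U}
      rw [mem_interior]
      refine ⟨interior {x | (h, x) ∈ Gen act K U} ∩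
        (act h) ⁻¹' (interior {x | (g, x) ∈ Gen act K U}), ?_,
        isOpen_interior.inter (isOpen_interior.preimage (hcont h)), ⟨hh, hg⟩⟩
      rintro y ⟨hy1, hy2⟩
      have h1 : act h y ∈ {x | (g, x) ∈ Gen act K U} := interior_subset hy2
      have h2 : y ∈ {x | (h, x) ∈ Gen act K U} := interior_subset hy1
      exact (Gen_isSub act K U).1 g h y h1 h2
    · intro g x hg
      show act g x ∈ interior {x | (g⁻¹, x) ∈ Gen act K U}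
      rw [mem_interior]
      refine ⟨(act g⁻¹) ⁻¹' (interior {x | (g, x) ∈ Gen act K U}), ?_,
        isOpen_interior.preimage (hcont _), ?_⟩
      · intro y hy
        have h0 : act g⁻¹ y ∈ {x | (g, x) ∈ Gen act K U} := interior_subset hy
        have h1 := (Gen_isSub act K U).2 g (act g⁻¹ y) h0
        rw [← hmul, mul_inv_cancel, hone] at h1
        exact h1
      · show act g⁻¹ (act g x) ∈ interior {x | (g, x) ∈ Gen act K U}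
        rw [← hmul, inv_mul_cancel, hone]
        exact hg
  have hKO : {k ∈ K | k.2 ∈ U} ⊆ O := by
    rintro ⟨g, x⟩ ⟨hk, hx⟩
    show x ∈ interior {x | (g, x) ∈ Gen act K U}
    rw [mem_interior]
    refine ⟨{x | (g, x) ∈ K} ∩ U, ?_, (hK g).inter hU, ⟨hk, hx⟩⟩
    rintro y ⟨hy1, hy2⟩
    exact Gen_sub act K U ⟨hy1, hy2⟩
  have hle := Gen_le act K U O hO hKO
  intro g
  rw [← interior_eq_iff_isOpen]
  apply Subset.antisymm interior_subset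
  intro x hx
  exact hle hx

/-- closed under the two rules of finite dynamical complexity -/
def Rules (act : Γ → (ℕ → Bool) → (ℕ → Bool)) (𝒞 : Set (Set (Γ × (ℕ → Bool)))) : Prop :=
  (∀ H : Set (Γ × (ℕ → Bool)), IsSub act H →
      (∀ g : Γ, IsOpen {x : ℕ → Bool | (g, x) ∈ H}) →
      Set.Finite {g : Γ | ∃ x : ℕ → Bool, (g, x) ∈ H} → H ∈ 𝒞) ∧
  (∀ H : Set (Γ × (ℕ → Bool)), IsSub act H →
      (∀ g : Γ, IsOpen {x : ℕ → Bool | (g, x) ∈ H}) →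
      (∀ K : Set (Γ × (ℕ → Bool)), K ⊆ H →
        (∀ g : Γ, IsOpen {x : ℕ → Bool | (g, x) ∈ K}) →
        Set.Finite {g : Γ | ∃ x : ℕ → Bool, (g, x) ∈ K} →
        ∃ U₀ U₁ : Set (ℕ → Bool), IsOpen U₀ ∧ IsOpen U₁ ∧
          {x : ℕ → Bool | ((1 : Γ), x) ∈ H} ⊆ U₀ ∪ U₁ ∧ Gen act K U₀ ∈ 𝒞 ∧ Gen act K U₁ ∈ 𝒞) →
      H ∈ 𝒞)

/-- the induction predicate -/
def Good (𝒴 : Set (Set Γ)) : Prop :=
  𝒴.PairwiseDisjoint id ∧ ∃ S : Set (Set Γ), S.Countable ∧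
    ∀ (A : ℕ → Set Γ) (act : Γ → (ℕ → Bool) → (ℕ → Bool))
      (π : (ℕ → Bool) → (Γ × ℕ → Bool)), Coded A act π → S ⊆ range A →
      ∀ 𝒞, Rules act 𝒞 → ∀ H, IsSub act H → (∀ g : Γ, IsOpen {x : ℕ → Bool | (g, x) ∈ H}) →
        H ⊆ HY A π 𝒴 → H ∈ 𝒞

lemma good_bounded (ℓ : Γ → ℝ) (hinv : ∀ g, ℓ g⁻¹ = ℓ g) (hfin : ∀ R : ℝ, Set.Finite {g | ℓ g ≤ R})
    (𝒴 : Set (Set Γ)) (hd : 𝒴.PairwiseDisjoint id)
    (hb : ∃ R : ℝ, ∀ Y ∈ 𝒴, ∀ a ∈ Y, ∀ b ∈ Y, ℓ (a⁻¹ * b) ≤ R) : Good 𝒴 := by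
  obtain ⟨R, hR⟩ := hb
  refine ⟨hd, ∅, Set.countable_empty, ?_⟩
  intro A act π hC _ 𝒞 h𝒞 H hH hHo hHY
  apply h𝒞.1 H hH hHo
  apply (hfin R).subset
  rintro g ⟨x, hx⟩
  have h1 : π x ∈ closure (pt A '' E 𝒴 g) := hHY hx
  have h2 : (E 𝒴 g).Nonempty := by
    by_contra hne
    rw [not_nonempty_iff_eq_empty] at hne
    rw [hne, image_empty, closure_empty] at h1
    exact h1
  obtain ⟨a, Y, hY, ha, hag⟩ := h2
  have h3 := hR Y hY a ha _ hag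
  rw [← mul_assoc, inv_mul_cancel, one_mul, hinv] at h3
  exact h3

lemma good_decomp [Countable Γ] (ℓ : Γ → ℝ) (h0 : ℓ 1 = 0)
    (𝒴 : Set (Set Γ)) (hd : 𝒴.PairwiseDisjoint id)
    (h : ∀ r : ℝ, 0 ≤ r → ∃ 𝒵₀, Good 𝒵₀ ∧ ∃ 𝒵₁, Good 𝒵₁ ∧ ∀ Y ∈ 𝒴, ∃ Y₀ Y₁ : Set Γ, Y = Y₀ ∪ Y₁ ∧
              ∃ P₀ P₁ : Set (Set Γ), ⋃₀ P₀ = Y₀ ∧ ⋃₀ P₁ = Y₁ ∧
                (∀ A ∈ P₀, {y ∈ Y | ∃ z ∈ A, ℓ (y⁻¹ * z) < r} ∈ 𝒵₀) ∧
                (∀ A ∈ P₁, {y ∈ Y | ∃ z ∈ A, ℓ (y⁻¹ * z) < r} ∈ 𝒵₁)) : Good 𝒴 := by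
  have h' : ∀ r : ℕ, ∃ 𝒵₀ 𝒵₁ : Set (Set Γ), Good 𝒵₀ ∧ Good 𝒵₁ ∧ ∃ U₀ U₁ : Set Γ,
      (∀ Y ∈ 𝒴, ∀ a ∈ Y, a ∈ U₀ ∨ a ∈ U₁) ∧
      (∀ a ∈ U₀, ∀ Y ∈ 𝒴, ∀ g, a ∈ Y → a * g⁻¹ ∈ Y → ℓ g < (r + 1 : ℕ) → a ∈ E 𝒵₀ g) ∧
      (∀ a ∈ U₁, ∀ Y ∈ 𝒴, ∀ g, a ∈ Y → a * g⁻¹ ∈ Y → ℓ g < (r + 1 : ℕ) → a ∈ E 𝒵₁ g) := by
    intro r
    obtain ⟨𝒵₀, hZ0, 𝒵₁, hZ1, hdec⟩ := h ((r + 1 : ℕ) : ℝ) (Nat.cast_nonneg _)
    choose! Y₀ Y₁ hYu P₀ P₁ hP0 hP1 hz0 hz1 using hdec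
    have hr : 0 < ((r + 1 : ℕ) : ℝ) := by positivity
    generalize ((r + 1 : ℕ) : ℝ) = r' at *
    have aux : ∀ (𝒵 : Set (Set Γ)) (Y' : Set Γ → Set Γ) (P : Set Γ → Set (Set Γ)),
        (∀ Y ∈ 𝒴, ⋃₀ P Y = Y' Y) → (∀ Y ∈ 𝒴, Y' Y ⊆ Y) →
        (∀ Y ∈ 𝒴, ∀ A ∈ P Y, {y ∈ Y | ∃ z ∈ A, ℓ (y⁻¹ * z) < r'} ∈ 𝒵) →
        ∀ a ∈ (⋃ Y ∈ 𝒴, Y' Y), ∀ Y ∈ 𝒴, ∀ g, a ∈ Y → a * g⁻¹ ∈ Y → ℓ g < r' →
          a ∈ E 𝒵 g := by
      intro 𝒵 Y' P hP hsub hz a ha Y hY g h1 h2 h3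
      simp only [mem_iUnion] at ha
      obtain ⟨W, hW, haW⟩ := ha
      have hWY : W = Y := by
        by_contra hne
        exact (Set.disjoint_left.1 (hd hW hY hne)) (hsub W hW haW) h1
      subst hWY
      rw [← hP W hW] at haW
      obtain ⟨B, hB, haB⟩ := haW
      refine ⟨_, hz W hW B hB, ⟨h1, a, haB, ?_⟩, ⟨h2, a, haB, ?_⟩⟩
      · rw [inv_mul_cancel, h0]; exact hr
      · rw [mul_inv_rev, inv_inv, mul_assoc, inv_mul_cancel, mul_one]; exact h3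
    refine ⟨𝒵₀, 𝒵₁, hZ0, hZ1, ⋃ Y ∈ 𝒴, Y₀ Y, ⋃ Y ∈ 𝒴, Y₁ Y, ?_, ?_, ?_⟩
    · intro Y hY a ha
      rw [hYu Y hY] at ha
      rcases ha with ha | ha
      · left; simp only [mem_iUnion]; exact ⟨Y, hY, ha⟩
      · right; simp only [mem_iUnion]; exact ⟨Y, hY, ha⟩
    · exact aux 𝒵₀ Y₀ P₀ hP0 (fun Y hY => by
        conv_rhs => rw [hYu Y hY]
        exact subset_union_left) hz0
    · exact aux 𝒵₁ Y₁ P₁ hP1 (fun Y hY => by
        conv_rhs => rw [hYu Y hY]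
        exact subset_union_right) hz1
  choose Z0 Z1 hZ0 hZ1 U0 U1 hcov hU0 hU1 using h'
  choose hZ0d S0 hS0c hS0 using hZ0
  choose hZ1d S1 hS1c hS1 using hZ1
  refine ⟨hd, ⋃ r : ℕ, (S0 r ∪ S1 r ∪ {U0 r, U1 r} ∪ range (E (Z0 r)) ∪ range (E (Z1 r))), ?_, ?_⟩
  · apply Set.countable_iUnion
    intro r
    exact ((((hS0c r).union (hS1c r)).union ((Set.countable_singleton _).insert _)).union
      (Set.countable_range _)).union (Set.countable_range _)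
  intro A act π hC hSA 𝒞 h𝒞 H hH hHo hHY
  have hsub : ∀ r, (S0 r ∪ S1 r ∪ {U0 r, U1 r} ∪ range (E (Z0 r)) ∪ range (E (Z1 r))) ⊆ range A :=
    fun r => (subset_iUnion (fun r => S0 r ∪ S1 r ∪ {U0 r, U1 r} ∪ range (E (Z0 r)) ∪
      range (E (Z1 r))) r).trans hSA
  apply h𝒞.2 H hH hHo
  intro K hKH hKo hKfin
  obtain ⟨R, hR⟩ : ∃ R : ℕ, ∀ g, (∃ x : ℕ → Bool, (g, x) ∈ K) → ℓ g < (R + 1 : ℕ) := by
    obtain ⟨M, hM⟩ := (hKfin.image ℓ).bddAbove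
    obtain ⟨R, hR⟩ := exists_nat_gt M
    refine ⟨R, fun g hg => ?_⟩
    have h1 := hM (mem_image_of_mem ℓ hg)
    push_cast
    linarith
  obtain ⟨n0, hn0⟩ : ∃ n, A n = U0 R := hsub R (by simp)
  obtain ⟨n1, hn1⟩ : ∃ n, A n = U1 R := hsub R (by simp)
  have hop : ∀ n, IsOpen {x : ℕ → Bool | π x (1, n) = true} := by
    intro n
    exact (isOpen_coord ((1 : Γ), n)).preimage hC.pcont
  have key : ∀ (n : ℕ) (Z : Set (Set Γ)) (U : Set Γ), A n = U → Z.PairwiseDisjoint id →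
      (∀ g, ∃ n, A n = E Z g) →
      (∀ a ∈ U, ∀ Y ∈ 𝒴, ∀ g, a ∈ Y → a * g⁻¹ ∈ Y → ℓ g < (R + 1 : ℕ) → a ∈ E Z g) →
      Gen act K {x : ℕ → Bool | π x (1, n) = true} ⊆ HY A π Z := by
    intro n Z U hn hZd hZA hU
    apply Gen_le _ _ _ _ (HY_isSub A act π hC Z hZd hZA)
    rintro ⟨g, x⟩ ⟨hk, hx⟩
    have h1 : π x ∈ closure (pt A '' E 𝒴 g) := hHY (hKH hk)
    have h2 := closure_coord A _ n _ h1 hx
    refine closure_mono (image_mono ?_) h2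
    rintro a ⟨⟨Y, hY, h3, h4⟩, h5⟩
    rw [hn] at h5
    exact hU a h5 Y hY g h3 h4 (hR g ⟨x, hk⟩)
  refine ⟨{x : ℕ → Bool | π x (1, n0) = true}, {x : ℕ → Bool | π x (1, n1) = true},
    hop n0, hop n1, ?_, ?_, ?_⟩
  · intro x hx
    have h1 : π x ∈ closure (pt A '' E 𝒴 1) := hHY hx
    have h2 : closure (pt A '' E 𝒴 1) ⊆
        {x : Γ × ℕ → Bool | x (1, n0) = true} ∪ {x : Γ × ℕ → Bool | x (1, n1) = true} := by
      apply closure_minimal _ ((isClosed_coord _).union (isClosed_coord _))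
      rintro _ ⟨a, ⟨Y, hY, ha, -⟩, rfl⟩
      rcases hcov R Y hY a ha with h3 | h3
      · left
        show pt A a (1, n0) = true
        rw [pt_apply, hn0]
        simpa using h3
      · right
        show pt A a (1, n1) = true
        rw [pt_apply, hn1]
        simpa using h3
    exact h2 h1
  · apply hS0 R A act π hC _ 𝒞 h𝒞 _ (Gen_isSub _ _ _)
      (Gen_open act hC.cont hC.one hC.mul K _ (hop n0) hKo)
    · exact key n0 (Z0 R) (U0 R) hn0 (hZ0d R) (fun g => hsub R (by simp)) (hU0 R)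
    · exact fun s hs => hsub R (by simp [hs])
  · apply hS1 R A act π hC _ 𝒞 h𝒞 _ (Gen_isSub _ _ _)
      (Gen_open act hC.cont hC.one hC.mul K _ (hop n1) hKo)
    · exact key n1 (Z1 R) (U1 R) hn1 (hZ1d R) (fun g => hsub R (by simp)) (hU1 R)
    · exact fun s hs => hsub R (by simp [hs])

end Pool.Agent.H812R3.FDC
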