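import Mathlib
import Pool.Agent.H812R3.FDC

set_option autoImplicit false

open Set Filter Topology

namespace Pool.Agent.H812R3.FDC

variable {Γ : Type} [Group Γ]

lemma sh_mem (A : ℕ → Set Γ) (g : Γ) (x : Γ × ℕ → Bool) (hx : x ∈ closure (range (pt A))) :
    sh g x ∈ closure (range (pt A)) := by
  have h1 : sh g x ∈ closure (sh g '' range (pt A)) :=
    image_closure_subset_closure_image (sh_continuous g) ⟨x, hx, rfl⟩
  refine closure_mono ?_ h1
  rintro _ ⟨_, ⟨a, rfl⟩, rfl⟩
  exact ⟨a * g⁻¹, (sh_pt A g a).symm⟩

lemma exists_coded [Countable Γ] (A : ℕ → Set Γ) :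
    ∃ (act : Γ → (ℕ → Bool) → (ℕ → Bool)) (π : (ℕ → Bool) → (Γ × ℕ → Bool)), Coded A act π := by
  classical
  let X : Set (Γ × ℕ → Bool) := closure (range (pt A))
  have hXc : CompactSpace X := isCompact_iff_compactSpace.1 isClosed_closure.isCompact
  have hne : Nonempty X := ⟨⟨pt A 1, subset_closure (mem_range_self _)⟩⟩
  let Z : Type := X × (ℕ → Bool)
  haveI : CompactSpace Z := inferInstanceAs (CompactSpace (X × (ℕ → Bool)))
  haveI : Nonempty Z := inferInstanceAs (Nonempty (X × (ℕ → Bool)))
  obtain ⟨j, hj⟩ := exists_injective_nat ((Γ × ℕ) ⊕ ℕ)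
  let rd : Z → ((Γ × ℕ) ⊕ ℕ) → Bool := fun z i => Sum.elim z.1.1 z.2 i
  have hrd : ∀ i, Continuous (fun z : Z => rd z i) := by
    intro i
    rcases i with i | i
    · exact (continuous_apply i).comp (continuous_subtype_val.comp continuous_fst)
    · exact (continuous_apply i).comp continuous_snd
  let e : Z → (ℕ → Bool) := fun z m => if h : ∃ i, j i = m then rd z h.choose else false
  have he : Continuous e := by
    apply continuous_pi
    intro m
    by_cases h : ∃ i, j i = m
    · simp only [e, h, dif_pos]
      exact hrd _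
    · simp only [e, h, dif_neg, not_false_eq_true]
      exact continuous_const
  have hinj : Function.Injective e := by
    intro z w hzw
    have h1 : ∀ i, rd z i = rd w i := by
      intro i
      have h2 := congrFun hzw (j i)
      have h3 : ∃ i', j i' = j i := ⟨i, rfl⟩
      have h4 : h3.choose = i := hj h3.choose_spec
      simp only [e, h3, dif_pos] at h2
      rw [h4] at h2
      exact h2
    apply Prod.ext
    · apply Subtype.ext
      funext i
      exact h1 (Sum.inl i)
    · funext i
      exact h1 (Sum.inr i)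
  obtain ⟨θ⟩ := CantorChar.cantor_char e he hinj (by
    rintro ⟨x, c⟩ U hU hxc
    have hseq : Tendsto (fun m : ℕ => ((x, Function.update c m (!c m)) : Z)) atTop (𝓝 (x, c)) := by
      apply Tendsto.prodMk_nhds tendsto_const_nhds
      rw [tendsto_pi_nhds]
      intro n
      apply tendsto_const_nhds.congr'
      filter_upwards [eventually_gt_atTop n] with m hm
      rw [Function.update_of_ne hm.ne]
    obtain ⟨m, hm⟩ := (hseq.eventually (hU.mem_nhds hxc)).exists
    refine ⟨_, hm, ?_⟩
    intro h
    have h1 := congrFun (congrArg Prod.snd h) m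
    simp at h1)
  let actZ : Γ → Z → Z := fun g z => (⟨sh g z.1.1, sh_mem A g _ z.1.2⟩, z.2)
  have hactZ : ∀ g, Continuous (actZ g) := by
    intro g
    exact Continuous.prodMk (((sh_continuous g).comp
      (continuous_subtype_val.comp continuous_fst)).subtype_mk _) continuous_snd
  refine ⟨fun g c => θ (actZ g (θ.symm c)), fun c => (θ.symm c).1.1, ?_, ?_, ?_, ?_, ?_, ?_⟩
  · intro g
    exact θ.continuous.comp ((hactZ g).comp θ.symm.continuous)
  · intro c
    have : actZ 1 (θ.symm c) = θ.symm c := by
      apply Prod.ext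
      · apply Subtype.ext
        funext i
        show (θ.symm c).1.1 (i.1 * 1, i.2) = _
        rw [mul_one]
      · rfl
    show θ (actZ 1 (θ.symm c)) = c
    rw [this, θ.apply_symm_apply]
  · intro g h c
    show θ (actZ (g * h) (θ.symm c)) = θ (actZ g (θ.symm (θ (actZ h (θ.symm c)))))
    rw [θ.symm_apply_apply]
    congr 1
    apply Prod.ext
    · apply Subtype.ext
      funext i
      show (θ.symm c).1.1 (i.1 * (g * h), i.2) = (θ.symm c).1.1 (i.1 * g * h, i.2)
      rw [mul_assoc]
    · rfl
  · exact continuous_subtype_val.comp (continuous_fst.comp θ.symm.continuous)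
  · intro g c
    show (θ.symm (θ (actZ g (θ.symm c)))).1.1 = _
    rw [θ.symm_apply_apply]
  · intro c
    exact (θ.symm c).1.2

end Pool.Agent.H812R3.FDC
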