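import Mathlib

/-!
Words for the pair of minimal homeomorphisms.  A word of level `k+1` consists of three
arrangements of all words of level `k`, interleaved.
-/

set_option autoImplicit false

namespace Pool.Agent.H812R3.PM

/-- words of level `k` -/
def W : ℕ → Type
  | 0 => Fin 3
  | (k + 1) => Fin 3 → Equiv.Perm (W k)

theorem W_finite : ∀ k, Finite (W k)
  | 0 => inferInstanceAs (Finite (Fin 3))
  | (k + 1) => by
    have := W_finite k
    exact inferInstanceAs (Finite (Fin 3 → Equiv.Perm (W k)))

instance (k : ℕ) : Finite (W k) := W_finite k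

theorem W_nonempty : ∀ k, Nonempty (W k)
  | 0 => ⟨(0 : Fin 3)⟩
  | (k + 1) => ⟨fun _ => (1 : Equiv.Perm (W k))⟩

instance (k : ℕ) : Nonempty (W k) := W_nonempty k

noncomputable instance (k : ℕ) : DecidableEq (W k) := Classical.decEq _

/-- the three permutations of a word -/
def fn {k : ℕ} (w : W (k + 1)) : Fin 3 → Equiv.Perm (W k) := w

/-- a word from three permutations -/
def mk {k : ℕ} (f : Fin 3 → Equiv.Perm (W k)) : W (k + 1) := f

@[simp] lemma fn_mk {k : ℕ} (f : Fin 3 → Equiv.Perm (W k)) : fn (mk f) = f := rfl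

@[simp] lemma mk_fn {k : ℕ} (w : W (k + 1)) : mk (fn w) = w := rfl

/-- number of words -/
noncomputable def q (k : ℕ) : ℕ := Nat.card (W k)

lemma q_pos (k : ℕ) : 0 < q k := Nat.card_pos

/-- enumeration of words -/
noncomputable def en (k : ℕ) : Fin (q k) ≃ W k := (Finite.equivFin (W k)).symm

/-- length of words -/
noncomputable def h : ℕ → ℕ
  | 0 => 1
  | (k + 1) => h k * (3 * q k)

lemma h_succ (k : ℕ) : h (k + 1) = h k * (3 * q k) := rfl

lemma h_pos : ∀ k, 0 < h k
  | 0 => one_pos
  | (k + 1) => Nat.mul_pos (h_pos k) (Nat.mul_pos (by norm_num) (q_pos k))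

lemma three_h_le (k : ℕ) : 3 * h k ≤ h (k + 1) := by
  rw [h_succ]
  have := q_pos k
  have := h_pos k
  nlinarith

lemma lt_h : ∀ k, k < h k
  | 0 => one_pos
  | (k + 1) => by
    have h1 := lt_h k
    have h2 := three_h_le k
    omega

lemma h_mono : Monotone h := monotone_nat_of_le_succ fun k => by
  have := three_h_le k
  omega

/-- the `m`-th sub-word -/
noncomputable def sub (k : ℕ) (w : W (k + 1)) (m : ℕ) : W k :=
  fn w ⟨m % 3, Nat.mod_lt _ (by norm_num)⟩ (en k ⟨m / 3 % q k, Nat.mod_lt _ (q_pos k)⟩)

/-- letters of a word -/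
noncomputable def lt : (k : ℕ) → W k → ℕ → Fin 3
  | 0, w, _ => w
  | (k + 1), w, n => lt k (sub k w (n / h k)) (n % h k)

/-- compatibility of words: the unordered pair `{a,b}` never occurs at one place -/
def compat (a b : Fin 3) (k : ℕ) (u v : W k) : Prop :=
  ∀ n, ¬ (lt k u n = a ∧ lt k v n = b) ∧ ¬ (lt k u n = b ∧ lt k v n = a)

lemma compat_refl {a b : Fin 3} (hab : a ≠ b) (k : ℕ) (u : W k) : compat a b k u u := by
  intro n
  constructor
  · rintro ⟨h1, h2⟩; exact hab (h1.symm.trans h2)
  · rintro ⟨h1, h2⟩; exact hab (h2.symm.trans h1)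

lemma compat_symm {a b : Fin 3} {k : ℕ} {u v : W k} (h : compat a b k u v) :
    compat a b k v u := by
  intro n
  exact ⟨fun h1 => (h n).2 ⟨h1.2, h1.1⟩, fun h1 => (h n).1 ⟨h1.2, h1.1⟩⟩

/-- the compatibility graph -/
def G (a b : Fin 3) (k : ℕ) : SimpleGraph (W k) where
  Adj u v := u ≠ v ∧ compat a b k u v
  symm := ⟨fun _ _ h => ⟨h.1.symm, compat_symm h.2⟩⟩
  loopless := ⟨fun _ h => h.1 rfl⟩

/-- one elementary move -/
lemma reach_move {a b : Fin 3} (hab : a ≠ b) (k : ℕ) (c : Fin 3) (u v : W k)
    (huv : (G a b k).Adj u v) (f : Fin 3 → Equiv.Perm (W k)) :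
    (G a b (k + 1)).Reachable (mk f) (mk (Function.update f c (Equiv.swap u v * f c))) := by
  apply SimpleGraph.Adj.reachable
  refine ⟨?_, ?_⟩
  · intro h
    have h1 : f c = Equiv.swap u v * f c := by
      have h2 : f = Function.update f c (Equiv.swap u v * f c) := h
      have h3 := congrFun h2 c
      rwa [Function.update_self] at h3
    have h4 : Equiv.swap u v = 1 := by
      have := mul_eq_right.1 h1.symm
      exact this
    rw [Equiv.swap_eq_one_iff] at h4
    exact huv.1 h4
  · intro n
    show ¬ (lt k (sub k (mk f) (n / h k)) (n % h k) = a ∧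
        lt k (sub k (mk (Function.update f c (Equiv.swap u v * f c))) (n / h k)) (n % h k) = b) ∧
      ¬ (lt k (sub k (mk f) (n / h k)) (n % h k) = b ∧
        lt k (sub k (mk (Function.update f c (Equiv.swap u v * f c))) (n / h k)) (n % h k) = a)
    have key : compat a b k (sub k (mk f) (n / h k))
        (sub k (mk (Function.update f c (Equiv.swap u v * f c))) (n / h k)) := by
      unfold sub
      rw [fn_mk, fn_mk]
      by_cases hc : (⟨n / h k % 3, Nat.mod_lt _ (by norm_num)⟩ : Fin 3) = c
      · rw [hc, Function.update_self, Equiv.Perm.mul_apply]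
        generalize f c _ = x
        by_cases h1 : x = u
        · rw [h1, Equiv.swap_apply_left]; exact huv.2
        · by_cases h2 : x = v
          · rw [h2, Equiv.swap_apply_right]; exact compat_symm huv.2
          · rw [Equiv.swap_apply_of_ne_of_ne h1 h2]; exact compat_refl hab k x
      · rw [Function.update_of_ne hc]; exact compat_refl hab k _
    exact key _

lemma reach_swap {a b : Fin 3} (hab : a ≠ b) (k : ℕ) (c : Fin 3) {u v : W k}
    (p : (G a b k).Walk u v) : ∀ f : Fin 3 → Equiv.Perm (W k),
    (G a b (k + 1)).Reachable (mk f) (mk (Function.update f c (Equiv.swap u v * f c))) := by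
  induction p with
  | nil =>
    intro f
    rw [Equiv.swap_self, show (Equiv.refl _ : Equiv.Perm (W k)) = 1 from rfl, one_mul,
      Function.update_eq_self]
  | @cons u x v hux p ih =>
    intro f
    by_cases huv : u = v
    · subst huv
      rw [Equiv.swap_self, show (Equiv.refl _ : Equiv.Perm (W k)) = 1 from rfl, one_mul,
        Function.update_eq_self]
    by_cases hxv : x = v
    · subst hxv
      exact reach_move hab k c u x hux f
    have h1 := reach_move hab k c u x hux f
    have h2 := ih (Function.update f c (Equiv.swap u x * f c))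
    have h3 := reach_move hab k c u x hux (Function.update (Function.update f c (Equiv.swap u x * f c)) c
      (Equiv.swap x v * (Function.update f c (Equiv.swap u x * f c)) c))
    refine (h1.trans (h2.trans h3)).trans ?_
    simp only [Function.update_self, Function.update_idem]
    have h4 : Equiv.swap u x * (Equiv.swap x v * (Equiv.swap u x * f c)) = Equiv.swap u v * f c := by
      rw [← mul_assoc, ← mul_assoc]
      congr 1
      have h5 := Equiv.swap_mul_swap_mul_swap (x := v) (y := x) (z := u) (Ne.symm hxv) (Ne.symm huv)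
      rw [Equiv.swap_comm u x, Equiv.swap_comm x v]
      exact h5
    rw [h4]

lemma reach_perm {a b : Fin 3} (hab : a ≠ b) (k : ℕ) (hG : (G a b k).Preconnected) (c : Fin 3)
    (σ : Equiv.Perm (W k)) : ∀ f : Fin 3 → Equiv.Perm (W k),
    (G a b (k + 1)).Reachable (mk f) (mk (Function.update f c (σ * f c))) := by
  classical
  induction σ using Equiv.Perm.swap_induction_on with
  | one => intro f; rw [one_mul, Function.update_eq_self]
  | swap_mul σ x y _ ih =>
    intro f
    obtain ⟨p⟩ := hG x y
    have h1 := ih f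
    have h2 := reach_swap hab k c p (Function.update f c (σ * f c))
    refine h1.trans (h2.trans ?_)
    simp only [Function.update_self, Function.update_idem, mul_assoc]
    exact SimpleGraph.Reachable.refl _

lemma base_conn : ∀ a b u v : Fin 3, a ≠ b → ∃ c : Fin 3,
    (u = c ∨ (u ≠ c ∧ ¬ (u = a ∧ c = b) ∧ ¬ (u = b ∧ c = a))) ∧
    (c = v ∨ (c ≠ v ∧ ¬ (c = a ∧ v = b) ∧ ¬ (c = b ∧ v = a))) := by
  decide

theorem G_conn {a b : Fin 3} (hab : a ≠ b) : ∀ k, (G a b k).Preconnected
  | 0 => by
    intro u v
    obtain ⟨c, h1, h2⟩ := base_conn a b u v hab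
    have key : ∀ x y : Fin 3, (x = y ∨ (x ≠ y ∧ ¬ (x = a ∧ y = b) ∧ ¬ (x = b ∧ y = a))) →
        (G a b 0).Reachable (x : W 0) (y : W 0) := by
      rintro x y (h | h)
      · subst h
        exact SimpleGraph.Reachable.refl _
      · exact SimpleGraph.Adj.reachable ⟨h.1, fun _ => h.2⟩
    exact (key u c h1).trans (key c v h2)
  | (k + 1) => by
    have hG := G_conn hab k
    intro f g
    have step : ∀ (c : Fin 3) (f : W (k + 1)) (σ : Equiv.Perm (W k)),
        (G a b (k + 1)).Reachable f (mk (Function.update (fn f) c σ)) := by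
      intro c f σ
      have := reach_perm hab k hG c (σ * (fn f c)⁻¹) (fn f)
      rwa [mul_assoc, inv_mul_cancel, mul_one] at this
    have h0 := step 0 f (fn g 0)
    have h1 := step 1 (mk (Function.update (fn f) 0 (fn g 0))) (fn g 1)
    have h2 := step 2 (mk (Function.update (fn (mk (Function.update (fn f) 0 (fn g 0)))) 1
      (fn g 1))) (fn g 2)
    refine (h0.trans (h1.trans h2)).trans ?_
    have : mk (Function.update (fn (mk (Function.update (fn (mk (Function.update (fn f) 0
        (fn g 0)))) 1 (fn g 1)))) 2 (fn g 2)) = g := by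
      show Function.update (Function.update (Function.update (fn f) 0 (fn g 0)) 1 (fn g 1)) 2
        (fn g 2) = fn g
      funext c
      fin_cases c <;> simp [Function.update]
    rw [this]

lemma tau_of_path {a b : Fin 3} (k : ℕ) {w v : W k}
    (p : (G a b k).Walk w v) (hp : p.IsPath) :
    ∃ τ : Equiv.Perm (W k), τ w = v ∧ (∀ u, u ≠ w → τ u = u ∨ (G a b k).Adj u (τ u)) ∧
      ∀ u, u ∉ p.support → τ u = u := by
  induction p with
  | nil => exact ⟨1, rfl, fun u _ => Or.inl rfl, fun u _ => rfl⟩
  | @cons w x v hwx p ih =>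
    rw [SimpleGraph.Walk.cons_isPath_iff] at hp
    obtain ⟨τ, h1, h2, h3⟩ := ih hp.1
    refine ⟨τ * Equiv.swap w x, ?_, ?_, ?_⟩
    · rw [Equiv.Perm.mul_apply, Equiv.swap_apply_left, h1]
    · intro u huw
      by_cases hux : u = x
      · subst hux
        right
        rw [Equiv.Perm.mul_apply, Equiv.swap_apply_right, h3 w hp.2]
        exact hwx.symm
      · rw [Equiv.Perm.mul_apply, Equiv.swap_apply_of_ne_of_ne huw hux]
        exact h2 u hux
    · intro u hu
      rw [SimpleGraph.Walk.support_cons, List.mem_cons, not_or] at hu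
      have hux : u ≠ x := by
        rintro rfl
        exact hu.2 p.start_mem_support
      rw [Equiv.Perm.mul_apply, Equiv.swap_apply_of_ne_of_ne hu.1 hux]
      exact h3 u hu.2

theorem exists_tau (a b : Fin 3) (k : ℕ) (w v : W k) :
    ∃ τ : Equiv.Perm (W k), τ w = v ∧ (a ≠ b → ∀ u, u ≠ w → compat a b k u (τ u)) := by
  classical
  by_cases hab : a = b
  · exact ⟨Equiv.swap w v, Equiv.swap_apply_left _ _, fun h => absurd hab h⟩
  · obtain ⟨p⟩ := G_conn hab k w v
    obtain ⟨τ, h1, h2, -⟩ := tau_of_path k p.toPath.1 p.toPath.2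
    refine ⟨τ, h1, fun _ u hu => ?_⟩
    rcases h2 u hu with h | h
    · rw [h]; exact compat_refl hab k u
    · exact h.2

/-- the correcting permutation -/
noncomputable def tau (a b : Fin 3) (k : ℕ) (w v : W k) : Equiv.Perm (W k) :=
  (exists_tau a b k w v).choose

lemma tau_apply (a b : Fin 3) (k : ℕ) (w v : W k) : tau a b k w v w = v :=
  (exists_tau a b k w v).choose_spec.1

lemma tau_compat {a b : Fin 3} (hab : a ≠ b) (k : ℕ) (w v u : W k) (hu : u ≠ w) :
    compat a b k u (tau a b k w v u) :=
  (exists_tau a b k w v).choose_spec.2 hab u hu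

end Pool.Agent.H812R3.PM
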