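import Mathlib
import Pool.Agent.H812R3.PMWords

set_option autoImplicit false

namespace Pool.Agent.H812R3.PM

/-- blocks in a word -/
noncomputable def Q (k : ℕ) : ℕ := 3 * q k

lemma Q_ge (k : ℕ) : 3 ≤ Q k := by
  have := q_pos k
  unfold Q
  omega

lemma h_succ' (k : ℕ) : h (k + 1) = h k * Q k := rfl

/-- index in `Fin 3` -/
def f3 (n : ℕ) : Fin 3 := ⟨n % 3, Nat.mod_lt _ (by norm_num)⟩

lemma f3_val (c : Fin 3) : f3 c.1 = c := by
  apply Fin.ext
  exact Nat.mod_eq_of_lt c.2

/-- the `M`-th block of a triple -/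
noncomputable def blk (k : ℕ) (t : Fin 3 → W (k + 1)) (M : ℕ) : W k :=
  sub k (t (f3 (M / Q k))) (M % Q k)

/-- the first block of the window -/
noncomputable def M0 (k J : ℕ) : ℕ := Q k - 1 + J / h k

/-- restriction of a triple to the window of level `k` -/
noncomputable def res (k J : ℕ) (t : Fin 3 → W (k + 1)) : Fin 3 → W k :=
  fun i => blk k t (M0 k J + i.1)

/-- the index `i < 3` with `(M + i) % 3 = c` -/
def ic (M c : ℕ) : ℕ := (c + 3 - M % 3) % 3

lemma ic_lt (M c : ℕ) : ic M c < 3 := Nat.mod_lt _ (by norm_num)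

lemma ic_spec (M c : ℕ) (hc : c < 3) : (M + ic M c) % 3 = c := by
  unfold ic; omega

lemma ic_unique (M i : ℕ) (hi : i < 3) : ic M ((M + i) % 3) = i := by
  unfold ic; omega

/-- letters of a triple; the middle word starts at `h k` -/
noncomputable def tl (k : ℕ) (t : Fin 3 → W k) (n : ℕ) : Fin 3 := lt k (t (f3 (n / h k))) (n % h k)

/-- the modification maps -/
noncomputable def Phi : (k : ℕ) → ℕ → (Fin 3 → W k) → (Fin 3 → W k)
  | 0, _, t => Function.update t 1 ((show Fin 3 from t 1) + 1 : Fin 3)
  | (k + 1), J, t => fun g => mk fun c =>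
      if (M0 k J + ic (M0 k J) c.1) / Q k = g.1 then
        tau (tl k (res k J t) (h k + J % h k)) (tl k (Phi k (J % h k) (res k J t)) (h k + J % h k)) k
          (res k J t (f3 (ic (M0 k J) c.1))) (Phi k (J % h k) (res k J t) (f3 (ic (M0 k J) c.1)))
          * fn (t g) c
      else fn (t g) c

lemma Phi_succ_fn (k J : ℕ) (t : Fin 3 → W (k + 1)) (g c : Fin 3) :
    fn (Phi (k + 1) J t g) c = if (M0 k J + ic (M0 k J) c.1) / Q k = g.1 then
        tau (tl k (res k J t) (h k + J % h k)) (tl k (Phi k (J % h k) (res k J t)) (h k + J % h k)) k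
          (res k J t (f3 (ic (M0 k J) c.1))) (Phi k (J % h k) (res k J t) (f3 (ic (M0 k J) c.1)))
          * fn (t g) c
      else fn (t g) c := rfl

lemma M0_lt (k J : ℕ) (hJ : J < h (k + 1)) : M0 k J + 1 < 2 * Q k := by
  have h1 : J / h k < Q k := Nat.div_lt_of_lt_mul (by rw [← h_succ']; exact hJ)
  have := Q_ge k
  unfold M0
  omega

lemma blk_eq (k : ℕ) (t : Fin 3 → W (k + 1)) (M : ℕ) :
    blk k t M = fn (t (f3 (M / Q k))) (f3 M) (en k ⟨M % Q k / 3 % q k, Nat.mod_lt _ (q_pos k)⟩) := by
  unfold blk sub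
  have h1 : M % Q k % 3 = M % 3 := by
    unfold Q
    rw [Nat.mod_mul_right_mod]
  have h2 : (⟨M % Q k % 3, Nat.mod_lt _ (by norm_num)⟩ : Fin 3) = f3 M := by
    apply Fin.ext
    exact h1
  rw [h2]

lemma blk_Phi (k J : ℕ) (t : Fin 3 → W (k + 1)) (M : ℕ) (hM : M < 3 * Q k) :
    blk k (Phi (k + 1) J t) M = if (M0 k J + ic (M0 k J) (M % 3)) / Q k = M / Q k then
        tau (tl k (res k J t) (h k + J % h k)) (tl k (Phi k (J % h k) (res k J t)) (h k + J % h k)) k
          (res k J t (f3 (ic (M0 k J) (M % 3))))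
          (Phi k (J % h k) (res k J t) (f3 (ic (M0 k J) (M % 3)))) (blk k t M)
      else blk k t M := by
  have h1 : M / Q k < 3 := Nat.div_lt_of_lt_mul (by rw [mul_comm]; exact hM)
  rw [blk_eq, Phi_succ_fn, blk_eq]
  have h2 : (f3 (M / Q k)).1 = M / Q k := Nat.mod_eq_of_lt h1
  have h3 : (f3 M).1 = M % 3 := rfl
  rw [h2, h3]
  split_ifs with h4
  · rw [Equiv.Perm.mul_apply]
  · rfl

lemma res_Phi (k J : ℕ) (hJ : J < h (k + 1)) (t : Fin 3 → W (k + 1)) :
    res k J (Phi (k + 1) J t) = Phi k (J % h k) (res k J t) := by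
  funext i
  have hM := M0_lt k J hJ
  have hQ := Q_ge k
  have hi := i.2
  show blk k (Phi (k + 1) J t) (M0 k J + i.1) = _
  rw [blk_Phi k J t _ (by omega), ic_unique _ _ i.2, if_pos rfl, f3_val]
  exact tau_apply _ _ _ _ _

lemma Phi_injective : ∀ (k J : ℕ), J < h k → Function.Injective (Phi k J)
  | 0, J, _ => by
    intro t s hts
    have h1 : ∀ i, Phi 0 J t i = Phi 0 J s i := fun i => congrFun hts i
    funext i
    by_cases hi : i = 1
    · subst hi
      have e2 : ∀ s : Fin 3 → W 0, Phi 0 J s 1 = ((show Fin 3 from s 1) + 1 : Fin 3) := by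
        intro s
        simp [Phi, Function.update_self]
      have h2 := h1 1
      rw [e2, e2] at h2
      have h3 : ∀ x y : Fin 3, x + 1 = y + 1 → x = y := by decide
      exact h3 _ _ h2
    · have h2 := h1 i
      simpa [Phi, Function.update_of_ne hi] using h2
  | (k + 1), J, hJ => by
    intro t s hts
    have hJ' : J % h k < h k := Nat.mod_lt _ (h_pos k)
    have h1 : Phi k (J % h k) (res k J t) = Phi k (J % h k) (res k J s) := by
      rw [← res_Phi k J hJ, ← res_Phi k J hJ, hts]
    have h2 : res k J t = res k J s := Phi_injective k (J % h k) hJ' h1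
    funext g
    have h3 : ∀ c, fn (Phi (k + 1) J t g) c = fn (Phi (k + 1) J s g) c := by
      intro c; rw [hts]
    show fn (t g) = fn (s g)
    funext c
    have h4 := h3 c
    rw [Phi_succ_fn, Phi_succ_fn, h2] at h4
    split_ifs at h4 with h5
    · exact mul_left_cancel h4
    · exact h4

/-- the key property: the pair of letters at the origin never occurs later on -/
theorem Phi_good : ∀ (k J : ℕ), J < h k → ∀ t : Fin 3 → W k,
    tl k t (h k + J) ≠ tl k (Phi k J t) (h k + J) ∧
    ∀ n, h k + J < n → n < 3 * h k →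
      ¬ (tl k t n = tl k t (h k + J) ∧ tl k (Phi k J t) n = tl k (Phi k J t) (h k + J)) ∧
      ¬ (tl k t n = tl k (Phi k J t) (h k + J) ∧ tl k (Phi k J t) n = tl k t (h k + J))
  | 0, J, hJ => by
    intro t
    have hh : h 0 = 1 := rfl
    rw [hh] at hJ ⊢
    have hJ0 : J = 0 := by omega
    subst hJ0
    have e1 : ∀ (s : Fin 3 → W 0) (n : ℕ), tl 0 s n = (s (f3 n) : Fin 3) := by
      intro s n
      unfold tl
      rw [hh, Nat.div_one]
      rfl
    have e2 : Phi 0 0 t 1 = ((show Fin 3 from t 1) + 1 : Fin 3) := by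
      simp [Phi, Function.update_self]
    have e3 : Phi 0 0 t 2 = t 2 := by
      simp [Phi]
    have e4 : f3 (1 + 0) = 1 := rfl
    have e5 : f3 2 = 2 := rfl
    have e6 : ∀ x : Fin 3, x ≠ x + 1 := by decide
    refine ⟨?_, ?_⟩
    · rw [e1, e1, e4, e2]
      exact e6 _
    · intro n hn1 hn2
      have : n = 2 := by omega
      subst this
      simp only [e1, e4, e5, e2, e3]
      constructor
      · rintro ⟨h1, h2⟩
        exact e6 _ (h1.symm.trans h2)
      · rintro ⟨h1, h2⟩
        exact e6 _ (h2.symm.trans h1)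
  | (k + 1), J, hJ => by
    intro t
    have hk := h_pos k
    have hQ := Q_ge k
    have hM0 := M0_lt k J hJ
    have hJ' : J % h k < h k := Nat.mod_lt _ hk
    obtain ⟨ih1, ih2⟩ := Phi_good k (J % h k) hJ' (res k J t)
    have e1 : ∀ (s : Fin 3 → W (k + 1)) (n : ℕ),
        tl (k + 1) s n = lt k (blk k s (n / h k)) (n % h k) := by
      intro s n
      show lt k (sub k (s (f3 (n / h (k + 1)))) (n % h (k + 1) / h k)) (n % h (k + 1) % h k) = _
      rw [h_succ', Nat.mod_mul_right_mod, Nat.mod_mul_right_div_self, ← Nat.div_div_eq_div_mul]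
      rfl
    have e2 : ∀ (s : Fin 3 → W (k + 1)) (i r : ℕ), i < 3 → r < h k →
        tl k (res k J s) (h k * i + r) = lt k (blk k s (M0 k J + i)) r := by
      intro s i r hi hr
      unfold tl
      rw [Nat.mul_add_mod, Nat.mod_eq_of_lt hr, Nat.mul_add_div hk, Nat.div_eq_of_lt hr, add_zero]
      have : f3 i = ⟨i, hi⟩ := Fin.ext (Nat.mod_eq_of_lt hi)
      rw [this]
      rfl
    -- the origin
    have e3 : (h (k + 1) + J) / h k = M0 k J + 1 := by
      rw [h_succ', Nat.mul_add_div hk]
      unfold M0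
      omega
    have e4 : (h (k + 1) + J) % h k = J % h k := by
      rw [h_succ', Nat.mul_add_mod]
    have e5 : ∀ s : Fin 3 → W (k + 1), tl (k + 1) s (h (k + 1) + J)
        = tl k (res k J s) (h k + J % h k) := by
      intro s
      rw [e1, e3, e4]
      have := e2 s 1 (J % h k) (by norm_num) hJ'
      rw [mul_one] at this
      exact this.symm
    rw [e5, e5, res_Phi k J hJ]
    refine ⟨ih1, ?_⟩
    intro n hn1 hn2
    set a := tl k (res k J t) (h k + J % h k) with ha
    set b := tl k (Phi k (J % h k) (res k J t)) (h k + J % h k) with hb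
    have hr : n % h k < h k := Nat.mod_lt _ hk
    have hMge : M0 k J + 1 ≤ n / h k := by
      rw [← e3]
      exact Nat.div_le_div_right hn1.le
    have hMlt : n / h k < 3 * Q k := by
      apply Nat.div_lt_of_lt_mul
      calc n < 3 * h (k + 1) := hn2
        _ = h k * (3 * Q k) := by rw [h_succ']; ring
    rw [e1, e1]
    by_cases hc1 : n / h k = M0 k J + 1
    · rw [hc1, ← e2 t 1 _ (by norm_num) hr, ← e2 (Phi (k + 1) J t) 1 _ (by norm_num) hr,
        res_Phi k J hJ, mul_one]
      apply ih2
      · have h1 : n = h k * (n / h k) + n % h k := (Nat.div_add_mod n (h k)).symm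
        have h2 : h (k + 1) + J = h k * ((h (k + 1) + J) / h k) + (h (k + 1) + J) % h k :=
          (Nat.div_add_mod _ (h k)).symm
        rw [e3, e4] at h2
        rw [hc1] at h1
        omega
      · omega
    by_cases hc2 : n / h k = M0 k J + 2
    · rw [hc2, ← e2 t 2 _ (by norm_num) hr, ← e2 (Phi (k + 1) J t) 2 _ (by norm_num) hr,
        res_Phi k J hJ]
      apply ih2
      · omega
      · omega
    -- later blocks
    have hM3 : M0 k J + 3 ≤ n / h k := by omega
    generalize n / h k = M at *
    generalize n % h k = r at *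
    have hcomp : compat a b k (blk k t M) (blk k (Phi (k + 1) J t) M) := by
      rw [blk_Phi k J t M hMlt]
      split_ifs with h4
      · apply tau_compat ih1
        intro heq
        -- blk t M = res i = blk t (M0 + i), same word, same class
        have hi := ic_lt (M0 k J) (M % 3)
        have hsp := ic_spec (M0 k J) (M % 3) (Nat.mod_lt _ (by norm_num))
        set i := ic (M0 k J) (M % 3) with hidef
        have h5 : res k J t (f3 i) = blk k t (M0 k J + i) := by
          show blk k t (M0 k J + i % 3) = _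
          rw [Nat.mod_eq_of_lt hi]
        rw [h5, blk_eq, blk_eq, h4] at heq
        have h6 : f3 (M0 k J + i) = f3 M := Fin.ext hsp
        rw [h6] at heq
        have h7 := (fn (t (f3 (M / Q k))) (f3 M)).injective heq
        have h8 := (en k).injective h7
        have h9 : M % Q k / 3 % q k = (M0 k J + i) % Q k / 3 % q k := congrArg Fin.val h8
        have hlt : ∀ x : ℕ, x % Q k / 3 < q k := by
          intro x
          apply Nat.div_lt_of_lt_mul
          exact Nat.mod_lt _ (by omega)
        rw [Nat.mod_eq_of_lt (hlt M), Nat.mod_eq_of_lt (hlt _)] at h9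
        have h10 : M % Q k % 3 = (M0 k J + i) % Q k % 3 := by
          unfold Q
          rw [Nat.mod_mul_right_mod, Nat.mod_mul_right_mod, hsp]
        have h11 : M % Q k = (M0 k J + i) % Q k := by omega
        have h12 := Nat.div_add_mod M (Q k)
        have h13 := Nat.div_add_mod (M0 k J + i) (Q k)
        rw [h4] at h13
        omega
      · exact compat_refl ih1 k _
    exact hcomp r

end Pool.Agent.H812R3.PM
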