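import Mathlib
import Pool.Agent.H812R3.PMPhi

set_option autoImplicit false

namespace Pool.Agent.H812R3.PM

/-- state of a level: position in the block, and the word -/
def St (k : ℕ) : Type := Fin (h k) × W k

instance (k : ℕ) : Finite (St k) := inferInstanceAs (Finite (Fin (h k) × W k))
instance (k : ℕ) : TopologicalSpace (St k) := ⊥
instance (k : ℕ) : DiscreteTopology (St k) := ⟨rfl⟩

/-- window data of a level -/
def Dt (k : ℕ) : Type := Fin (h k) × (Fin 3 → W k)

instance (k : ℕ) : Finite (Dt k) := inferInstanceAs (Finite (Fin (h k) × (Fin 3 → W k)))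
instance (k : ℕ) : TopologicalSpace (Dt k) := ⊥
instance (k : ℕ) : DiscreteTopology (Dt k) := ⟨rfl⟩

/-- position -/
def ps {k : ℕ} (s : St k) : ℕ := s.1.1
/-- word -/
def wd {k : ℕ} (s : St k) : W k := s.2
/-- make a state -/
noncomputable def ms (k : ℕ) (n : ℕ) (w : W k) : St k := (⟨n % h k, Nat.mod_lt _ (h_pos k)⟩, w)

lemma ps_lt {k : ℕ} (s : St k) : ps s < h k := s.1.2
@[simp] lemma ps_ms (k n : ℕ) (w : W k) : ps (ms k n w) = n % h k := rfl
@[simp] lemma wd_ms (k n : ℕ) (w : W k) : wd (ms k n w) = w := rfl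
lemma St_ext {k : ℕ} {s t : St k} (h1 : ps s = ps t) (h2 : wd s = wd t) : s = t :=
  Prod.ext (Fin.ext h1) h2

/-- go down one level -/
noncomputable def one (k : ℕ) (s : St (k + 1)) : St k := ms k (ps s) (sub k (wd s) (ps s / h k))

@[simp] lemma ps_one (k : ℕ) (s : St (k + 1)) : ps (one k s) = ps s % h k := rfl
@[simp] lemma wd_one (k : ℕ) (s : St (k + 1)) : wd (one k s) = sub k (wd s) (ps s / h k) := rfl

/-- neighbouring states -/
def AdjS {k : ℕ} (s s' : St k) : Prop :=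
  ps s' = (ps s + 1) % h k ∧ (ps s + 1 < h k → wd s' = wd s)

lemma AdjS_one (k : ℕ) (s s' : St (k + 1)) (hs : AdjS s s') : AdjS (one k s) (one k s') := by
  obtain ⟨h1, h2⟩ := hs
  have hk := h_pos k
  constructor
  · rw [ps_one, ps_one, h1, h_succ', Nat.mod_mul_right_mod, Nat.mod_add_mod]
  · intro h3
    rw [ps_one] at h3
    have h4 : ps s = h k * (ps s / h k) + ps s % h k := (Nat.div_add_mod _ _).symm
    have h5 : ps s / h k < Q k := Nat.div_lt_of_lt_mul (ps_lt s)
    have h6 : ps s + 1 < h (k + 1) := by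
      rw [h_succ']
      have : h k * (ps s / h k + 1) ≤ h k * Q k := Nat.mul_le_mul_left _ h5
      rw [mul_add, mul_one] at this
      omega
    have h7 : ps s' = ps s + 1 := by rw [h1, Nat.mod_eq_of_lt h6]
    have h8 : (ps s + 1) / h k = ps s / h k := by
      have h9 : ps s + 1 = h k * (ps s / h k) + (ps s % h k + 1) := by omega
      rw [h9, Nat.mul_add_div hk, Nat.div_eq_of_lt h3, add_zero]
    rw [wd_one, wd_one, h2 h6, h7, h8]

/-- the rules of the space -/
def Rule (x : (k : ℕ) → ℤ → St k) : Prop :=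
  ∀ k p, x k p = one k (x (k + 1) p) ∧ AdjS (x k p) (x k (p + 1))

/-- the space -/
def X : Type := {x : (k : ℕ) → ℤ → St k // Rule x}

instance : TopologicalSpace X := instTopologicalSpaceSubtype

theorem isClosed_rule : IsClosed {x : (k : ℕ) → ℤ → St k | Rule x} := by
  have h1 : {x : (k : ℕ) → ℤ → St k | Rule x} = ⋂ k, ⋂ p,
      (fun x : (k : ℕ) → ℤ → St k => (x k p, x (k + 1) p, x k (p + 1))) ⁻¹'
        {z : St k × St (k + 1) × St k | z.1 = one k z.2.1 ∧ AdjS z.1 z.2.2} := by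
    ext x
    simp only [Rule, Set.mem_setOf_eq, Set.mem_iInter, Set.mem_preimage]
  rw [h1]
  refine isClosed_iInter fun k => isClosed_iInter fun p => IsClosed.preimage ?_ (isClosed_discrete _)
  exact Continuous.prodMk ((continuous_apply p).comp (continuous_apply k))
    (Continuous.prodMk ((continuous_apply p).comp (continuous_apply (k + 1)))
      ((continuous_apply (p + 1)).comp (continuous_apply k)))

instance : CompactSpace X :=
  isCompact_iff_compactSpace.1 isClosed_rule.isCompact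

instance : T2Space X := inferInstanceAs (T2Space {x : (k : ℕ) → ℤ → St k // Rule x})

instance (k : ℕ) : SecondCountableTopology (St k) := inferInstance

instance : SecondCountableTopology X :=
  TopologicalSpace.Subtype.secondCountableTopology {x : (k : ℕ) → ℤ → St k | Rule x}

instance : TopologicalSpace.MetrizableSpace X :=
  TopologicalSpace.metrizableSpace_of_t3_secondCountable X

/-- window data of a point -/
noncomputable def Info (k : ℕ) (x : X) : Dt k := ((x.1 k 0).1, fun i => wd (x.1 k (((i.1 : ℤ) - 1) * h k)))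

/-- restriction of window data -/
noncomputable def resD (k : ℕ) (d : Dt (k + 1)) : Dt k :=
  (⟨d.1.1 % h k, Nat.mod_lt _ (h_pos k)⟩, res k d.1.1 d.2)

/-- local state from window data -/
noncomputable def loc (k : ℕ) (d : Dt k) (p : ℤ) : St k :=
  ms k ((h k + d.1.1 + p : ℤ).toNat) (d.2 (f3 ((h k + d.1.1 + p : ℤ).toNat / h k)))

lemma loc_coh (k : ℕ) (d : Dt (k + 1)) (p : ℤ) (hp : |p| ≤ h k) :
    loc k (resD k d) p = one k (loc (k + 1) d p) := by
  have hk := h_pos k
  have hQ := Q_ge k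
  have hJ := d.1.2
  obtain ⟨J, hJeq⟩ : ∃ J, J = d.1.1 := ⟨_, rfl⟩
  have hmod : h k * (J / h k) + J % h k = J := Nat.div_add_mod _ _
  have hMd : h k * (M0 k J) + h k = h (k + 1) + h k * (J / h k) := by
    unfold M0
    rw [h_succ', Nat.mul_add, Nat.mul_sub]
    have : h k * 1 ≤ h k * Q k := Nat.mul_le_mul_left _ (by omega)
    omega
  obtain ⟨u, hu⟩ : ∃ u : ℕ, (h k + (J % h k : ℕ) + p : ℤ) = u := by
    refine ⟨(h k + (J % h k : ℕ) + p : ℤ).toNat, ?_⟩
    rw [Int.toNat_of_nonneg]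
    have := (abs_le.1 hp).1
    omega
  have hJlt : J % h k < h k := Nat.mod_lt _ hk
  have hu3 : u < 3 * h k := by
    have := (abs_le.1 hp).2
    omega
  have hu' : (h (k + 1) + J + p : ℤ) = ((h k * M0 k J + u : ℕ) : ℤ) := by
    push_cast
    rw [← hu]
    have h1 : ((h k * (M0 k J) + h k : ℕ) : ℤ) = ((h (k + 1) + h k * (J / h k) : ℕ) : ℤ) := by
      rw [hMd]
    have h2 : ((h k * (J / h k) + J % h k : ℕ) : ℤ) = (J : ℤ) := by rw [hmod]
    push_cast at h1 h2 ⊢
    linarith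
  have e1 : (h k + (resD k d).1.1 + p : ℤ).toNat = u := by
    show (h k + ((d.1.1 % h k : ℕ) : ℤ) + p : ℤ).toNat = u
    rw [← hJeq, hu, Int.toNat_natCast]
  have e2 : (h (k + 1) + d.1.1 + p : ℤ).toNat = h k * M0 k J + u := by
    rw [← hJeq, hu', Int.toNat_natCast]
  have hi : u / h k < 3 := Nat.div_lt_of_lt_mul (by rw [mul_comm]; exact hu3)
  apply St_ext
  · show (h k + (resD k d).1.1 + p : ℤ).toNat % h k
      = (h (k + 1) + d.1.1 + p : ℤ).toNat % h (k + 1) % h k
    rw [e1, e2, h_succ', Nat.mod_mul_right_mod, Nat.mul_add_mod]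
  · show res k d.1.1 d.2 (f3 ((h k + (resD k d).1.1 + p : ℤ).toNat / h k))
      = sub k (d.2 (f3 ((h (k + 1) + d.1.1 + p : ℤ).toNat / h (k + 1))))
        ((h (k + 1) + d.1.1 + p : ℤ).toNat % h (k + 1) / h k)
    have e3 : (h k * M0 k J + u) / h (k + 1) = (M0 k J + u / h k) / Q k := by
      rw [h_succ', ← Nat.div_div_eq_div_mul, Nat.mul_add_div hk]
    have e4 : (h k * M0 k J + u) % h (k + 1) / h k = (M0 k J + u / h k) % Q k := by
      rw [h_succ', Nat.mod_mul_right_div_self, Nat.mul_add_div hk]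
    rw [e1, e2, e3, e4, ← hJeq]
    show blk k d.2 (M0 k J + (u / h k) % 3) = _
    rw [Nat.mod_eq_of_lt hi]
    rfl

/-- states from window data at higher levels -/
noncomputable def gg (D : (k : ℕ) → Dt k) (p : ℤ) : (n : ℕ) → (k : ℕ) → St k
  | 0, k => loc k (D k) p
  | (n + 1), k => one k (gg D p n (k + 1))

/-- coherent window data -/
def Coh (D : (k : ℕ) → Dt k) : Prop := ∀ k, resD k (D (k + 1)) = D k

lemma gg_succ (D : (k : ℕ) → Dt k) (hD : Coh D) (p : ℤ) : ∀ (n k : ℕ), |p| ≤ h (k + n) →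
    gg D p n k = gg D p (n + 1) k
  | 0, k, hp => by
    show loc k (D k) p = one k (loc (k + 1) (D (k + 1)) p)
    rw [← loc_coh k _ p hp, hD k]
  | (n + 1), k, hp => by
    show one k (gg D p n (k + 1)) = one k (gg D p (n + 1) (k + 1))
    rw [gg_succ D hD p n (k + 1) (by rwa [show k + 1 + n = k + (n + 1) by omega])]

lemma gg_stable (D : (k : ℕ) → Dt k) (hD : Coh D) (p : ℤ) (n m k : ℕ) (hnm : n ≤ m)
    (hp : |p| ≤ h (k + n)) : gg D p n k = gg D p m k := by
  induction m, hnm using Nat.le_induction with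
  | base => rfl
  | succ m hm ih =>
    rw [ih]
    apply gg_succ D hD
    have : h (k + n) ≤ h (k + m) := h_mono (by omega)
    have h2 : (h (k + n) : ℤ) ≤ h (k + m) := by exact_mod_cast this
    linarith

lemma abs_le_h (p : ℤ) (k n : ℕ) (hn : p.natAbs ≤ n) : |p| ≤ h (k + n) := by
  have h1 := lt_h (k + n)
  rw [Int.abs_eq_natAbs]
  exact_mod_cast (by omega : p.natAbs ≤ h (k + n))

lemma loc_adj (k : ℕ) (d : Dt k) (p : ℤ) (hp : |p| ≤ h k) :
    AdjS (loc k d p) (loc k d (p + 1)) := by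
  have hk := h_pos k
  obtain ⟨u, hu⟩ : ∃ u : ℕ, (h k + (d.1.1 : ℤ) + p : ℤ) = u := by
    refine ⟨(h k + (d.1.1 : ℤ) + p : ℤ).toNat, ?_⟩
    rw [Int.toNat_of_nonneg]
    have := (abs_le.1 hp).1
    omega
  have e1 : (h k + (d.1.1 : ℤ) + p : ℤ).toNat = u := by rw [hu, Int.toNat_natCast]
  have e2 : (h k + (d.1.1 : ℤ) + (p + 1) : ℤ).toNat = u + 1 := by
    rw [← add_assoc, hu]
    exact_mod_cast Int.toNat_natCast (u + 1)
  unfold loc
  rw [e1, e2]
  constructor
  · rw [ps_ms, ps_ms, Nat.mod_add_mod]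
  · rw [ps_ms, wd_ms, wd_ms]
    intro h3
    have : (u + 1) / h k = u / h k := by
      have h4 := Nat.div_add_mod u (h k)
      have h5 : (u + 1) = h k * (u / h k) + (u % h k + 1) := by omega
      rw [h5, Nat.mul_add_div hk, Nat.div_eq_of_lt h3, add_zero]
    rw [this]

lemma gg_adj (D : (k : ℕ) → Dt k) (p : ℤ) : ∀ (n k : ℕ), |p| ≤ h (k + n) →
    AdjS (gg D p n k) (gg D (p + 1) n k)
  | 0, k, hp => loc_adj k _ p hp
  | (n + 1), k, hp => by
    apply AdjS_one
    exact gg_adj D p n (k + 1) (by rwa [show k + 1 + n = k + (n + 1) by omega])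

/-- the point with given coherent window data -/
noncomputable def asm (D : (k : ℕ) → Dt k) (hD : Coh D) : X :=
  ⟨fun k p => gg D p p.natAbs k, by
    intro k p
    constructor
    · show gg D p p.natAbs k = one k (gg D p p.natAbs (k + 1))
      rw [gg_succ D hD p _ k (abs_le_h p k _ le_rfl)]
      rfl
    · have hn : p.natAbs ≤ max p.natAbs (p + 1).natAbs := le_max_left _ _
      have hn' : (p + 1).natAbs ≤ max p.natAbs (p + 1).natAbs := le_max_right _ _
      show AdjS (gg D p p.natAbs k) (gg D (p + 1) (p + 1).natAbs k)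
      rw [gg_stable D hD p _ _ k hn (abs_le_h p k _ le_rfl),
        gg_stable D hD (p + 1) _ _ k hn' (abs_le_h (p + 1) k _ le_rfl)]
      exact gg_adj D p _ k (abs_le_h p k _ hn)⟩

lemma asm_apply (D : (k : ℕ) → Dt k) (hD : Coh D) (k : ℕ) (p : ℤ) (hp : |p| ≤ h k) :
    (asm D hD).1 k p = loc k (D k) p :=
  (gg_stable D hD p 0 _ k (Nat.zero_le _) hp).symm

lemma Info_asm (D : (k : ℕ) → Dt k) (hD : Coh D) (k : ℕ) : Info k (asm D hD) = D k := by
  have hk := h_pos k
  have hJ := (D k).1.2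
  apply Prod.ext
  · apply Fin.ext
    show ps ((asm D hD).1 k 0) = _
    rw [asm_apply D hD k 0 (by simp)]
    show (h k + ((D k).1.1 : ℤ) + 0 : ℤ).toNat % h k = _
    have : (h k + ((D k).1.1 : ℤ) + 0 : ℤ).toNat = h k + (D k).1.1 := by omega
    rw [this, Nat.add_mod_left, Nat.mod_eq_of_lt hJ]
  · funext i
    show wd ((asm D hD).1 k (((i.1 : ℤ) - 1) * h k)) = _
    have hi := i.2
    have habs : |((i.1 : ℤ) - 1) * h k| ≤ h k := by
      rw [abs_mul, Nat.abs_cast]
      have h1 : |(i.1 : ℤ) - 1| ≤ 1 := by rw [abs_le]; omega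
      nlinarith
    rw [asm_apply D hD k _ habs]
    show (D k).2 (f3 ((h k + ((D k).1.1 : ℤ) + ((i.1 : ℤ) - 1) * h k : ℤ).toNat / h k)) = _
    have h2 : (h k + ((D k).1.1 : ℤ) + ((i.1 : ℤ) - 1) * h k : ℤ) = ((h k * i.1 + (D k).1.1 : ℕ) : ℤ) := by
      push_cast; ring
    rw [h2, Int.toNat_natCast, Nat.mul_add_div hk, Nat.div_eq_of_lt hJ, add_zero, f3_val]

lemma ps_add (x : X) (k : ℕ) (p : ℤ) (n : ℕ) : ps (x.1 k (p + n)) = (ps (x.1 k p) + n) % h k := by
  induction n with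
  | zero => simp [Nat.mod_eq_of_lt (ps_lt _)]
  | succ n ih =>
    have h1 := (x.2 k (p + n)).2.1
    rw [show p + ((n + 1 : ℕ) : ℤ) = p + n + 1 by push_cast; ring, h1, ih, Nat.mod_add_mod, add_assoc]

lemma wd_add (x : X) (k : ℕ) (p : ℤ) (n : ℕ) (hn : ps (x.1 k p) + n < h k) :
    wd (x.1 k (p + n)) = wd (x.1 k p) := by
  induction n with
  | zero => simp
  | succ n ih =>
    have h1 := (x.2 k (p + n)).2.2
    rw [show p + ((n + 1 : ℕ) : ℤ) = p + n + 1 by push_cast; ring, h1, ih (by omega)]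
    rw [ps_add, Nat.mod_eq_of_lt (by omega)]
    omega

lemma loc_info (x : X) (k : ℕ) (p : ℤ) (hp : |p| ≤ h k) : loc k (Info k x) p = x.1 k p := by
  have hk := h_pos k
  obtain ⟨J, hJ⟩ : ∃ J, J = ps (x.1 k 0) := ⟨_, rfl⟩
  have hJlt : J < h k := by rw [hJ]; exact ps_lt _
  have hI1 : (Info k x).1.1 = J := hJ.symm
  obtain ⟨u, hu⟩ : ∃ u : ℕ, (h k + (J : ℤ) + p : ℤ) = u := by
    refine ⟨(h k + (J : ℤ) + p : ℤ).toNat, ?_⟩
    rw [Int.toNat_of_nonneg]
    have := (abs_le.1 hp).1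
    omega
  have hu3 : u < 3 * h k := by
    have := (abs_le.1 hp).2
    omega
  have hi : u / h k < 3 := Nat.div_lt_of_lt_mul (by rw [mul_comm]; exact hu3)
  -- the block start
  obtain ⟨i, hieq⟩ : ∃ i, i = u / h k := ⟨_, rfl⟩
  obtain ⟨r, hreq⟩ : ∃ r, r = u % h k := ⟨_, rfl⟩
  have hr : r < h k := by rw [hreq]; exact Nat.mod_lt _ hk
  have hur : u = h k * i + r := by rw [hieq, hreq]; exact (Nat.div_add_mod _ _).symm
  obtain ⟨s, hs⟩ : ∃ s : ℤ, s = ((i : ℤ) - 1) * h k - J := ⟨_, rfl⟩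
  -- position at `-h - J`
  have hbase : ps (x.1 k (-(h k : ℤ) - J)) = 0 := by
    have h1 := ps_add x k (-(h k : ℤ) - J) (h k + J)
    rw [show (-(h k : ℤ) - J) + ((h k + J : ℕ) : ℤ) = 0 by push_cast; ring, ← hJ] at h1
    have h2 := ps_lt (x.1 k (-(h k : ℤ) - J))
    generalize ps (x.1 k (-(h k : ℤ) - J)) = c at *
    have h3 : (c + (h k + J)) % h k = (c + J) % h k := by
      rw [show c + (h k + J) = (c + J) + h k by ring, Nat.add_mod_right]
    rw [h3] at h1
    by_cases h4 : c + J < h k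
    · rw [Nat.mod_eq_of_lt h4] at h1; omega
    · have h5 : (c + J) % h k = c + J - h k := by
        rw [Nat.mod_eq_sub_mod (by omega), Nat.mod_eq_of_lt (by omega)]
      omega
  have hps : ps (x.1 k s) = 0 := by
    have h1 := ps_add x k (-(h k : ℤ) - J) (h k * i)
    have e : (-(h k : ℤ) - J) + ((h k * i : ℕ) : ℤ) = s := by rw [hs]; push_cast; ring
    rw [hbase, zero_add, Nat.mul_mod_right, e] at h1
    exact h1
  have hp' : p = s + r := by
    have h1 : (u : ℤ) = (h k : ℤ) * i + r := by exact_mod_cast hur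
    rw [h1] at hu
    rw [hs]
    linarith
  have e1 : (h k + ((Info k x).1.1 : ℤ) + p : ℤ).toNat = u := by
    rw [hI1, hu, Int.toNat_natCast]
  apply St_ext
  · show (h k + ((Info k x).1.1 : ℤ) + p : ℤ).toNat % h k = _
    rw [e1, ← hreq, hp', ps_add, hps, zero_add, Nat.mod_eq_of_lt hr]
  · show (Info k x).2 (f3 ((h k + ((Info k x).1.1 : ℤ) + p : ℤ).toNat / h k)) = _
    rw [e1, ← hieq]
    show wd (x.1 k ((((i % 3 : ℕ) : ℤ) - 1) * h k)) = _
    rw [Nat.mod_eq_of_lt (by omega), hp', wd_add x k s r (by rw [hps]; omega)]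
    rw [show ((i : ℤ) - 1) * h k = s + (J : ℕ) by rw [hs]; ring, wd_add x k s J (by rw [hps]; omega)]

lemma Info_coh (x : X) : Coh (fun k => Info k x) := by
  intro k
  have hk := h_pos k
  apply Prod.ext
  · apply Fin.ext
    show ps (x.1 (k + 1) 0) % h k = ps (x.1 k 0)
    rw [(x.2 k 0).1]
    rfl
  · funext i
    show (resD k (Info (k + 1) x)).2 i = wd (x.1 k (((i.1 : ℤ) - 1) * h k))
    have hi := i.2
    have habs : |((i.1 : ℤ) - 1) * h k| ≤ h k := by
      rw [abs_mul, Nat.abs_cast]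
      have h1 : |(i.1 : ℤ) - 1| ≤ 1 := by rw [abs_le]; omega
      nlinarith
    have hle : (h k : ℤ) ≤ h (k + 1) := by
      exact_mod_cast h_mono (Nat.le_succ k)
    rw [(x.2 k _).1, ← loc_info x (k + 1) _ (habs.trans hle), ← loc_coh k _ _ habs]
    have hJ := (resD k (Info (k + 1) x)).1.2
    generalize resD k (Info (k + 1) x) = d at *
    show _ = d.2 (f3 ((h k + (d.1.1 : ℤ) + ((i.1 : ℤ) - 1) * h k : ℤ).toNat / h k))
    have h2 : (h k + (d.1.1 : ℤ) + ((i.1 : ℤ) - 1) * h k : ℤ) = ((h k * i.1 + d.1.1 : ℕ) : ℤ) := by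
      push_cast; ring
    rw [h2, Int.toNat_natCast, Nat.mul_add_div hk, Nat.div_eq_of_lt hJ, add_zero, f3_val]

lemma gg_info (x : X) (p : ℤ) : ∀ (n k : ℕ), |p| ≤ h (k + n) →
    gg (fun k => Info k x) p n k = x.1 k p
  | 0, k, hp => loc_info x k p hp
  | (n + 1), k, hp => by
    show one k (gg (fun k => Info k x) p n (k + 1)) = x.1 k p
    rw [gg_info x p n (k + 1) (by rwa [show k + 1 + n = k + (n + 1) by omega]), (x.2 k p).1]

lemma asm_Info (x : X) : asm (fun k => Info k x) (Info_coh x) = x := by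
  apply Subtype.ext
  funext k p
  exact gg_info x p _ k (abs_le_h p k _ le_rfl)

lemma X_ext {x y : X} (hxy : ∀ k, Info k x = Info k y) : x = y := by
  rw [← asm_Info x, ← asm_Info y]
  congr 1
  funext k
  exact hxy k

end Pool.Agent.H812R3.PM
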