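import Mathlib
import Pool.Agent.H812R3.PMSpace

set_option autoImplicit false

open Filter Topology

namespace Pool.Agent.H812R3.PM

/-- the shift -/
def T : X ≃ₜ X where
  toFun x := ⟨fun k p => x.1 k (p + 1), fun k p => x.2 k (p + 1)⟩
  invFun x := ⟨fun k p => x.1 k (p - 1), fun k p => by
    have h1 := x.2 k (p - 1)
    rw [sub_add_cancel] at h1
    show x.1 k (p - 1) = one k (x.1 (k + 1) (p - 1)) ∧ AdjS (x.1 k (p - 1)) (x.1 k (p + 1 - 1))
    rw [add_sub_cancel_right]
    exact h1⟩
  left_inv x := by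
    apply Subtype.ext
    funext k p
    show x.1 k (p - 1 + 1) = x.1 k p
    rw [sub_add_cancel]
  right_inv x := by
    apply Subtype.ext
    funext k p
    show x.1 k (p + 1 - 1) = x.1 k p
    rw [add_sub_cancel_right]
  continuous_toFun := by
    refine Continuous.subtype_mk (continuous_pi fun k => continuous_pi fun p => ?_) _
    exact (continuous_apply (p + 1)).comp ((continuous_apply k).comp continuous_subtype_val)
  continuous_invFun := by
    refine Continuous.subtype_mk (continuous_pi fun k => continuous_pi fun p => ?_) _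
    exact (continuous_apply (p - 1)).comp ((continuous_apply k).comp continuous_subtype_val)

lemma T_iter (x : X) (n k : ℕ) (p : ℤ) : ((⇑T)^[n] x).1 k p = x.1 k (p + n) := by
  induction n generalizing p with
  | zero => simp
  | succ n ih =>
    rw [Function.iterate_succ_apply']
    show ((⇑T)^[n] x).1 k (p + 1) = _
    rw [ih]
    congr 1
    push_cast; ring

/-- every window datum occurs along every forward orbit -/
lemma exists_info (x : X) (K : ℕ) (d : Dt K) : ∃ n : ℕ, Info K ((⇑T)^[n] x) = d := by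
  have hK := h_pos K
  have hK1 := h_pos (K + 1)
  have hQ := Q_ge (K + 1)
  have hJ := d.1.2
  -- the word containing the triple
  let U : W (K + 1) := mk fun c => Equiv.swap (en K ⟨0, q_pos K⟩) (d.2 c)
  have hU : ∀ j : ℕ, j < 3 → sub K U j = d.2 (f3 j) := by
    intro j hj
    unfold sub
    have h1 : j / 3 % q K = 0 := by rw [Nat.div_eq_of_lt hj, Nat.zero_mod]
    have h2 : (⟨j / 3 % q K, Nat.mod_lt _ (q_pos K)⟩ : Fin (q K)) = ⟨0, q_pos K⟩ := Fin.ext h1
    rw [h2]
    show Equiv.swap (en K ⟨0, q_pos K⟩) (d.2 _) (en K ⟨0, q_pos K⟩) = _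
    rw [Equiv.swap_apply_left]
    rfl
  -- a block start of level K+2
  obtain ⟨c, hc⟩ : ∃ c : ℕ, ps (x.1 (K + 2) (c : ℤ)) = 0 := by
    refine ⟨h (K + 2) - ps (x.1 (K + 2) 0), ?_⟩
    have h1 := ps_add x (K + 2) 0 (h (K + 2) - ps (x.1 (K + 2) 0))
    rw [zero_add] at h1
    rw [h1]
    have h2 := ps_lt (x.1 (K + 2) 0)
    rw [Nat.add_sub_cancel' h2.le, Nat.mod_self]
  let V : W (K + 2) := wd (x.1 (K + 2) (c : ℤ))
  obtain ⟨i, hi⟩ : ∃ i : Fin (q (K + 1)), fn V 0 (en (K + 1) i) = U := by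
    refine ⟨(en (K + 1)).symm ((fn V 0).symm U), ?_⟩
    rw [Equiv.apply_symm_apply, Equiv.apply_symm_apply]
  have hi2 := i.2
  have hlt : 3 * i.1 < Q (K + 1) := by unfold Q; omega
  have hmul : h (K + 1) * (3 * i.1) + h (K + 1) ≤ h (K + 2) := by
    rw [h_succ' (K + 1)]
    have : h (K + 1) * (3 * i.1 + 1) ≤ h (K + 1) * Q (K + 1) := Nat.mul_le_mul_left _ hlt
    rwa [mul_add, mul_one] at this
  -- level K+1 states in that block
  have hlev1 : ∀ r : ℕ, r < h (K + 1) →
      x.1 (K + 1) ((c : ℤ) + ((h (K + 1) * (3 * i.1) + r : ℕ) : ℤ)) = ms (K + 1) r U := by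
    intro r hr
    rw [(x.2 (K + 1) _).1]
    have h1 : ps (x.1 (K + 2) ((c : ℤ) + ((h (K + 1) * (3 * i.1) + r : ℕ) : ℤ)))
        = h (K + 1) * (3 * i.1) + r := by
      rw [ps_add, hc, zero_add, Nat.mod_eq_of_lt (by omega)]
    have h2 : wd (x.1 (K + 2) ((c : ℤ) + ((h (K + 1) * (3 * i.1) + r : ℕ) : ℤ))) = V := by
      rw [wd_add x (K + 2) c _ (by rw [hc]; omega)]
    apply St_ext
    · show ps (x.1 (K + 2) _) % h (K + 1) = r % h (K + 1)
      rw [h1, Nat.mul_add_mod]
    · show sub (K + 1) (wd (x.1 (K + 2) _)) (ps (x.1 (K + 2) _) / h (K + 1)) = U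
      rw [h1, h2, Nat.mul_add_div hK1, Nat.div_eq_of_lt hr, add_zero]
      unfold sub
      have h3 : (⟨3 * i.1 % 3, Nat.mod_lt _ (by norm_num)⟩ : Fin 3) = 0 := by
        apply Fin.ext
        show 3 * i.1 % 3 = 0
        omega
      have h4 : (⟨3 * i.1 / 3 % q (K + 1), Nat.mod_lt _ (q_pos (K + 1))⟩ : Fin (q (K + 1))) = i := by
        apply Fin.ext
        show 3 * i.1 / 3 % q (K + 1) = i.1
        rw [Nat.mul_div_cancel_left _ (by norm_num), Nat.mod_eq_of_lt i.2]
      rw [h3, h4, hi]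
  have hlev0 : ∀ j : ℕ, j < 3 →
      x.1 K ((c : ℤ) + ((h (K + 1) * (3 * i.1) + (h K * j + d.1.1) : ℕ) : ℤ))
        = ms K d.1.1 (d.2 (f3 j)) := by
    intro j hj
    have h3 := three_h_le K
    have hr : h K * j + d.1.1 < h (K + 1) := by
      have : h K * j ≤ h K * 2 := Nat.mul_le_mul_left _ (by omega)
      omega
    rw [(x.2 K _).1, hlev1 _ hr]
    apply St_ext
    · show (h K * j + d.1.1) % h (K + 1) % h K = d.1.1 % h K
      rw [Nat.mod_eq_of_lt hr, Nat.mul_add_mod]
    · show sub K U ((h K * j + d.1.1) % h (K + 1) / h K) = d.2 (f3 j)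
      rw [Nat.mod_eq_of_lt hr, Nat.mul_add_div hK, Nat.div_eq_of_lt hJ, add_zero, hU j hj]
  refine ⟨c + (h (K + 1) * (3 * i.1) + (h K * 1 + d.1.1)), ?_⟩
  apply Prod.ext
  · apply Fin.ext
    show ps (((⇑T)^[_] x).1 K 0) = _
    rw [T_iter, zero_add]
    have h1 := hlev0 1 (by norm_num)
    have h2 : ((c + (h (K + 1) * (3 * i.1) + (h K * 1 + d.1.1)) : ℕ) : ℤ)
        = (c : ℤ) + ((h (K + 1) * (3 * i.1) + (h K * 1 + d.1.1) : ℕ) : ℤ) := by push_cast; ring
    rw [h2, h1]
    exact Nat.mod_eq_of_lt hJ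
  · funext g
    show wd (((⇑T)^[_] x).1 K (((g.1 : ℤ) - 1) * h K)) = _
    rw [T_iter]
    have h1 := hlev0 g.1 g.2
    have h2 : ((g.1 : ℤ) - 1) * h K + ((c + (h (K + 1) * (3 * i.1) + (h K * 1 + d.1.1)) : ℕ) : ℤ)
        = (c : ℤ) + ((h (K + 1) * (3 * i.1) + (h K * g.1 + d.1.1) : ℕ) : ℤ) := by push_cast; ring
    rw [h2, h1, f3_val]
    rfl

lemma gg_congr (D D' : (k : ℕ) → Dt k) (p : ℤ) : ∀ (n k : ℕ), D (k + n) = D' (k + n) →
    gg D p n k = gg D' p n k
  | 0, k, hD => by
    show loc k (D k) p = loc k (D' k) p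
    rw [show D k = D' k from hD]
  | (n + 1), k, hD => by
    show one k (gg D p n (k + 1)) = one k (gg D' p n (k + 1))
    rw [gg_congr D D' p n (k + 1) (by rw [show k + 1 + n = k + (n + 1) by omega]; exact hD)]

lemma det (x y : X) (k : ℕ) (p : ℤ) (n : ℕ) (hn : p.natAbs ≤ n)
    (hI : Info (k + n) x = Info (k + n) y) : x.1 k p = y.1 k p := by
  rw [← gg_info x p n k (abs_le_h p k n hn), ← gg_info y p n k (abs_le_h p k n hn)]
  exact gg_congr _ _ p n k hI

theorem T_minimal (x : X) : Dense (Set.range (fun n : ℕ => (⇑T)^[n] x)) := by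
  intro y
  choose n hn using fun K => exists_info x K (Info K y)
  have hlim : Tendsto (fun K => (⇑T)^[n K] x) atTop (𝓝 y) := by
    have hind : Topology.IsInducing (fun x : X => x.1) := Topology.IsInducing.subtypeVal
    rw [hind.tendsto_nhds_iff, tendsto_pi_nhds]
    intro k
    rw [tendsto_pi_nhds]
    intro p
    apply tendsto_const_nhds.congr'
    filter_upwards [eventually_ge_atTop (k + p.natAbs)] with K hK
    obtain ⟨m, rfl⟩ := Nat.exists_eq_add_of_le hK
    have h1 := hn (k + p.natAbs + m)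
    rw [add_assoc] at h1 ⊢
    exact (det _ _ k p (p.natAbs + m) (by omega) h1).symm
  exact mem_closure_of_tendsto hlim (Eventually.of_forall fun K => ⟨n K, rfl⟩)

/-- the modified window data -/
noncomputable def ph (k : ℕ) (d : Dt k) : Dt k := (d.1, Phi k d.1.1 d.2)

lemma resD_ph (k : ℕ) (d : Dt (k + 1)) : resD k (ph (k + 1) d) = ph k (resD k d) := by
  apply Prod.ext
  · rfl
  · exact res_Phi k d.1.1 d.1.2 d.2

lemma ph_injective (k : ℕ) : Function.Injective (ph k) := by
  intro d e hde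
  have h1 : (ph k d).1 = (ph k e).1 := by rw [hde]
  have h2 : (ph k d).2 = (ph k e).2 := by rw [hde]
  change d.1 = e.1 at h1
  change Phi k d.1.1 d.2 = Phi k e.1.1 e.2 at h2
  rw [← h1] at h2
  exact Prod.ext h1 (Phi_injective k d.1.1 d.1.2 h2)

/-- the modification as an equivalence -/
noncomputable def phE (k : ℕ) : Dt k ≃ Dt k :=
  Equiv.ofBijective (ph k) (Finite.injective_iff_bijective.1 (ph_injective k))

lemma phE_apply (k : ℕ) (d : Dt k) : phE k d = ph k d := rfl

lemma resD_phE (k : ℕ) (d : Dt (k + 1)) : resD k (phE (k + 1) d) = phE k (resD k d) :=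
  resD_ph k d

lemma resD_phE_symm (k : ℕ) (d : Dt (k + 1)) :
    resD k ((phE (k + 1)).symm d) = (phE k).symm (resD k d) := by
  rw [Equiv.eq_symm_apply, ← resD_phE, Equiv.apply_symm_apply]

lemma coh_phE (D : (k : ℕ) → Dt k) (hD : Coh D) : Coh (fun k => phE k (D k)) := by
  intro k
  show resD k (phE (k + 1) (D (k + 1))) = phE k (D k)
  rw [resD_phE, hD k]

lemma coh_phE_symm (D : (k : ℕ) → Dt k) (hD : Coh D) : Coh (fun k => (phE k).symm (D k)) := by
  intro k
  show resD k ((phE (k + 1)).symm (D (k + 1))) = (phE k).symm (D k)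
  rw [resD_phE_symm, hD k]

/-- pack window data -/
def mkD (k : ℕ) (z : St k × (Fin 3 → St k)) : Dt k := (z.1.1, fun i => wd (z.2 i))

lemma Info_continuous (k : ℕ) : Continuous (Info k) := by
  have h1 : Continuous (fun x : X => (x.1 k 0, fun i : Fin 3 => x.1 k (((i.1 : ℤ) - 1) * h k))) := by
    apply Continuous.prodMk
    · exact (continuous_apply _).comp ((continuous_apply k).comp continuous_subtype_val)
    · exact continuous_pi fun i =>
        (continuous_apply _).comp ((continuous_apply k).comp continuous_subtype_val)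
  have h2 : Continuous (mkD k) := continuous_of_discreteTopology
  exact h2.comp h1

lemma gg_continuous (F : (k : ℕ) → Dt k → Dt k) (p : ℤ) : ∀ (n k : ℕ),
    Continuous (fun x : X => gg (fun k => F k (Info k x)) p n k)
  | 0, k => by
    have h1 : Continuous (fun d : Dt k => loc k (F k d) p) := continuous_of_discreteTopology
    exact h1.comp (Info_continuous k)
  | (n + 1), k => by
    have h1 : Continuous (one k) := continuous_of_discreteTopology
    exact h1.comp (gg_continuous F p n (k + 1))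

/-- the conjugating homeomorphism -/
noncomputable def φ : X ≃ₜ X where
  toFun x := asm (fun k => phE k (Info k x)) (coh_phE _ (Info_coh x))
  invFun x := asm (fun k => (phE k).symm (Info k x)) (coh_phE_symm _ (Info_coh x))
  left_inv x := by
    apply X_ext
    intro k
    rw [Info_asm, Info_asm, Equiv.symm_apply_apply]
  right_inv x := by
    apply X_ext
    intro k
    rw [Info_asm, Info_asm, Equiv.apply_symm_apply]
  continuous_toFun := by
    refine Continuous.subtype_mk (continuous_pi fun k => continuous_pi fun p => ?_) _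
    exact gg_continuous (fun k => phE k) p _ k
  continuous_invFun := by
    refine Continuous.subtype_mk (continuous_pi fun k => continuous_pi fun p => ?_) _
    exact gg_continuous (fun k => (phE k).symm) p _ k

lemma Info_φ (k : ℕ) (x : X) : Info k (φ x) = ph k (Info k x) :=
  Info_asm (fun k => phE k (Info k x)) (coh_phE _ (Info_coh x)) k

/-- the letter at time `p` -/
noncomputable def letter (x : X) (p : ℤ) : Fin 3 := lt 0 (wd (x.1 0 p)) 0

lemma letter_eq (x : X) (p : ℤ) : ∀ k, letter x p = lt k (wd (x.1 k p)) (ps (x.1 k p))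
  | 0 => by
    have h1 := ps_lt (x.1 0 p)
    have h2 : h 0 = 1 := rfl
    have h3 : ps (x.1 0 p) = 0 := by omega
    rw [h3]; rfl
  | (k + 1) => by
    rw [letter_eq x p k, (x.2 k p).1]
    rfl

lemma letter_tl (x : X) (k n : ℕ) (hn : n ≤ h k) :
    letter x n = tl k (Info k x).2 (h k + (Info k x).1.1 + n) := by
  have h1 : |(n : ℤ)| ≤ h k := by
    rw [Nat.abs_cast]; exact_mod_cast hn
  rw [letter_eq x n k, ← loc_info x k n h1]
  have h2 : (h k + ((Info k x).1.1 : ℤ) + (n : ℤ) : ℤ).toNat = h k + (Info k x).1.1 + n := by omega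
  show lt k ((Info k x).2 (f3 ((h k + ((Info k x).1.1 : ℤ) + (n : ℤ) : ℤ).toNat / h k)))
    ((h k + ((Info k x).1.1 : ℤ) + (n : ℤ) : ℤ).toNat % h k) = _
  rw [h2]
  rfl

theorem no_return (x : X) (n : ℕ) (hn : 0 < n) :
    ¬ (letter x n = letter x 0 ∧ letter (φ x) n = letter (φ x) 0) := by
  have hk : n ≤ h n := (lt_h n).le
  have h0 : letter x 0 = tl n (Info n x).2 (h n + (Info n x).1.1) := by
    have := letter_tl x n 0 (Nat.zero_le _)
    rwa [add_zero] at this
  have h0' : letter (φ x) 0 = tl n (Phi n (Info n x).1.1 (Info n x).2) (h n + (Info n x).1.1) := by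
    have := letter_tl (φ x) n 0 (Nat.zero_le _)
    rw [Info_φ, add_zero] at this
    exact this
  have h1 := letter_tl x n n hk
  have h1' : letter (φ x) n = tl n (Phi n (Info n x).1.1 (Info n x).2)
      (h n + (Info n x).1.1 + n) := by
    have := letter_tl (φ x) n n hk
    rw [Info_φ] at this
    exact this
  have hJ := (Info n x).1.2
  have key := (Phi_good n (Info n x).1.1 hJ (Info n x).2).2 (h n + (Info n x).1.1 + n)
    (by omega) (by omega)
  rw [h0, h0', h1, h1']
  exact key.1

theorem X_nonempty : Nonempty X := by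
  -- every datum extends
  have hext : ∀ (k : ℕ) (d : Dt k), ∃ e : Dt (k + 1), resD k e = d := by
    intro k d
    have hk := h_pos k
    have hQ := Q_ge k
    have hJ := d.1.2
    have h3 := three_h_le k
    let U : W (k + 1) := mk fun c => Equiv.swap (en k ⟨0, q_pos k⟩) (d.2 c)
    refine ⟨(⟨h k * 1 + d.1.1, by omega⟩, fun _ => U), ?_⟩
    apply Prod.ext
    · apply Fin.ext
      show (h k * 1 + d.1.1) % h k = d.1.1
      rw [Nat.mul_add_mod, Nat.mod_eq_of_lt hJ]
    · funext i
      have hi := i.2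
      show sub k U ((M0 k (h k * 1 + d.1.1) + i.1) % Q k) = _
      have hM : M0 k (h k * 1 + d.1.1) = Q k := by
        unfold M0
        rw [Nat.mul_add_div hk, Nat.div_eq_of_lt hJ]
        omega
      rw [hM, Nat.add_mod_left, Nat.mod_eq_of_lt (by omega)]
      unfold sub
      have h1 : i.1 / 3 % q k = 0 := by rw [Nat.div_eq_of_lt hi, Nat.zero_mod]
      have h2 : (⟨i.1 / 3 % q k, Nat.mod_lt _ (q_pos k)⟩ : Fin (q k)) = ⟨0, q_pos k⟩ := Fin.ext h1
      rw [h2]
      show Equiv.swap (en k ⟨0, q_pos k⟩) (d.2 _) (en k ⟨0, q_pos k⟩) = _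
      rw [Equiv.swap_apply_left]
      have h4 : (⟨i.1 % 3, Nat.mod_lt _ (by norm_num)⟩ : Fin 3) = i :=
        Fin.ext (Nat.mod_eq_of_lt hi)
      rw [h4]
  choose ex hex using hext
  obtain ⟨d0⟩ : Nonempty (Dt 0) := ⟨(⟨0, h_pos 0⟩, fun _ => (0 : Fin 3))⟩
  let D : (k : ℕ) → Dt k := fun k => Nat.rec d0 (fun k d => ex k d) k
  exact ⟨asm D (fun k => hex k (D k))⟩

theorem letter_continuous (p : ℤ) : Continuous (fun x : X => letter x p) := by
  have h1 : Continuous (fun s : St 0 => lt 0 (wd s) 0) := continuous_of_discreteTopology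
  exact h1.comp ((continuous_apply p).comp ((continuous_apply 0).comp continuous_subtype_val))

end Pool.Agent.H812R3.PM
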